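import Pool.Agent.Hhelper48.Minim

set_option autoImplicit false

open MeasureTheory Set Metric
open scoped InnerProductSpace NNReal ENNReal Topology

namespace Pool.Agent.Hhelper48

variable {E : Type*} [NormedAddCommGroup E] [InnerProductSpace ℝ E] [FiniteDimensional ℝ E]
  [MeasurableSpace E] [BorelSpace E]

/-- First-order condition at a minimiser. -/
lemma first_order {μ : Measure E} [IsFiniteMeasureOnCompacts μ] {D G : Set E} {R L : ℝ}
    (hL : 0 ≤ L)
    (hD : Slopes D R) (hG : Bornology.IsBounded G) (hGm : MeasurableSet G)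
    {v : E → ℝ} (hv : ∀ p q, |v p - v q| ≤ L * ‖p - q‖)
    (hmin : ∀ v' : E → ℝ, (∀ p q, |v' p - v' q| ≤ L * ‖p - q‖) → fun_I μ D G v ≤ fun_I μ D G v')
    {K : Set E} (hKc : IsCompact K) (hKG : K ⊆ G) (hKne : K.Nonempty)
    (hKL : ∀ y ∈ K, ‖px D v y‖ ≤ L) (hpc : Continuous (px D v)) :
    μ K ≤ μ {p ∈ D | ∃ x ∈ px D v '' K, hat D v x ≤ ⟪p, x⟫_ℝ - v p} := by
  have hvc : Continuous v := continuous_of_lip hL hv
  set A : Set E := px D v '' K with hA
  have hAc : IsCompact A := hKc.image hpc
  have hAne : A.Nonempty := hKne.image _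
  have hφc : Continuous (hat D v) := by
    apply continuous_of_lip hD.nonneg
    intro x y
    rw [abs_le]
    have h1 := hat_lip hD.compact hD.nonempty hvc hD.bound x y
    have h2 := hat_lip hD.compact hD.nonempty hvc hD.bound y x
    rw [norm_sub_rev y x] at h2
    constructor <;> linarith
  -- the conjugate over `A`
  set vA : E → ℝ := fun p => hat A (hat D v) p with hvA
  have hvAlip : ∀ p q, |vA p - vA q| ≤ L * ‖p - q‖ := by
    intro p q
    have hAb : ∀ x ∈ A, ‖x‖ ≤ L := by
      rintro _ ⟨y, hy, rfl⟩
      exact hKL y hy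
    have h1 := hat_lip hAc hAne hφc hAb p q
    have h2 := hat_lip hAc hAne hφc hAb q p
    rw [norm_sub_rev q p] at h2
    rw [abs_le]
    constructor <;> linarith
  have hvAc : Continuous vA := continuous_of_lip hL hvAlip
  have hDm : MeasurableSet D := hD.compact.isClosed.measurableSet
  have hDf : μ D < ∞ := hD.compact.measure_lt_top
  have hGf : μ G < ∞ := hG.measure_lt_top
  have hKm : MeasurableSet K := hKc.isClosed.measurableSet
  have hKf : μ K < ∞ := hKc.measure_lt_top
  -- key estimate for each s
  have key : ∀ s : ℝ, 0 < s → μ K ≤ μ {p ∈ D | v p < vA p + s} := by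
    intro s hs
    set vs : E → ℝ := fun p => max (v p) (vA p + s) with hvs
    have hvslip : ∀ p q, |vs p - vs q| ≤ L * ‖p - q‖ := by
      intro p q
      simp only [hvs]
      refine (abs_max_sub_max_le_max _ _ _ _).trans (max_le (hv p q) ?_)
      have : vA p + s - (vA q + s) = vA p - vA q := by ring
      rw [this]
      exact hvAlip p q
    have hvsc : Continuous vs := continuous_of_lip hL hvslip
    have h1 := hmin vs hvslip
    set Ds : Set E := {p ∈ D | v p < vA p + s} with hDs
    have hDsm : MeasurableSet Ds := by
      have : Ds = D ∩ {p | v p < vA p + s} := by ext p; simp [hDs]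
      rw [this]
      exact hDm.inter (isOpen_lt hvc (hvAc.add continuous_const)).measurableSet
    have hDsD : Ds ⊆ D := fun p hp => hp.1
    have hDsf : μ Ds < ∞ := (measure_mono hDsD).trans_lt hDf
    -- D part
    have h2 : (∫ p in D, vs p ∂μ) ≤ (∫ p in D, v p ∂μ) + s * μ.real Ds := by
      have h3 : (∫ p in D, (v p + Ds.indicator (fun _ => s) p) ∂μ) = (∫ p in D, v p ∂μ) + s * μ.real Ds := by
        rw [integral_add (integrableOn_D hD hvc)]
        · rw [setIntegral_indicator hDsm, inter_eq_self_of_subset_right hDsD]
          simp [mul_comm]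
        · exact (integrableOn_const (by exact hDf.ne)).indicator hDsm
      rw [← h3]
      apply setIntegral_mono_on (integrableOn_D hD hvsc) _ hDm
      · intro p hp
        by_cases hps : p ∈ Ds
        · rw [indicator_of_mem hps]
          simp only [hvs]
          apply max_le (by linarith)
          have : vA p ≤ v p := by
            apply hat_le hAne
            intro x _
            have := le_hat hD.compact hvc hp x
            rw [real_inner_comm] at this
            linarith
          linarith
        · rw [indicator_of_notMem hps, add_zero]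
          simp only [hvs]
          apply max_le le_rfl
          by_contra hcon
          push Not at hcon
          exact hps ⟨hp, hcon⟩
      · exact (integrableOn_D hD hvc).add ((integrableOn_const (by exact hDf.ne)).indicator hDsm)
    -- G part
    have h4 : (∫ y in G, env D vs y ∂μ) ≤ (∫ y in G, env D v y ∂μ) - s * μ.real K := by
      have h5 : (∫ y in G, (env D v y - K.indicator (fun _ => s) y) ∂μ) = (∫ y in G, env D v y ∂μ) - s * μ.real K := by
        rw [integral_sub (integrableOn_env hD hG hvc)]
        · rw [setIntegral_indicator hKm, inter_eq_self_of_subset_right hKG]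
          simp [mul_comm]
        · exact (integrableOn_const (by exact hGf.ne)).indicator hKm
      rw [← h5]
      apply setIntegral_mono_on (integrableOn_env hD hG hvsc) _ hGm
      · intro y hy
        by_cases hyK : y ∈ K
        · rw [indicator_of_mem hyK]
          refine (env_le hD hvsc (px D v y) y).trans ?_
          have h6 : hat D vs (px D v y) ≤ hat D v (px D v y) - s := by
            apply hat_le hD.nonempty
            intro p hp
            have h7 : vA p + s ≤ vs p := le_max_right _ _
            have h8 : ⟪px D v y, p⟫_ℝ - hat D v (px D v y) ≤ vA p :=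
              le_hat hAc hφc (mem_image_of_mem _ hyK) p
            rw [real_inner_comm] at h8
            linarith
          rw [env]
          linarith
        · rw [indicator_of_notMem hyK, sub_zero]
          have := env_le_env_add hD hvc hvsc (c := 0) (fun p _ => by
            rw [add_zero]; exact le_max_left _ _) y
          linarith
      · exact (integrableOn_env hD hG hvc).sub ((integrableOn_const (by exact hGf.ne)).indicator hKm)
    rw [fun_I, fun_I] at h1
    have h9 : s * μ.real K ≤ s * μ.real Ds := by linarith
    have h10 : μ.real K ≤ μ.real Ds := le_of_mul_le_mul_left h9 hs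
    rw [measureReal_def, measureReal_def, ENNReal.toReal_le_toReal hKf.ne hDsf.ne] at h10
    exact h10
  -- limit s → 0
  have hanti : Antitone (fun n : ℕ => {p ∈ D | v p < vA p + 1 / ((n:ℝ) + 1)}) := by
    intro m n hmn p hp
    refine ⟨hp.1, hp.2.trans_le ?_⟩
    have : 1 / ((n:ℝ) + 1) ≤ 1 / ((m:ℝ) + 1) := by
      apply one_div_le_one_div_of_le (by positivity)
      have : (m:ℝ) ≤ n := by exact_mod_cast hmn
      linarith
    linarith
  have hlim : Filter.Tendsto (fun n : ℕ => μ {p ∈ D | v p < vA p + 1 / ((n:ℝ) + 1)}) Filter.atTop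
      (𝓝 (μ (⋂ n : ℕ, {p ∈ D | v p < vA p + 1 / ((n:ℝ) + 1)}))) := by
    apply tendsto_measure_iInter_atTop
    · intro n
      have : {p ∈ D | v p < vA p + 1 / ((n:ℝ) + 1)} = D ∩ {p | v p < vA p + 1 / ((n:ℝ) + 1)} := by
        ext p; simp
      rw [this]
      exact (hDm.inter (isOpen_lt hvc (hvAc.add continuous_const)).measurableSet).nullMeasurableSet
    · exact hanti
    · exact ⟨0, ((measure_mono (fun p hp => hp.1)).trans_lt hDf).ne⟩
  have h11 : μ K ≤ μ (⋂ n : ℕ, {p ∈ D | v p < vA p + 1 / ((n:ℝ) + 1)}) :=
    ge_of_tendsto' hlim (fun n => key _ (by positivity))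
  refine h11.trans (measure_mono ?_)
  intro p hp
  rw [mem_iInter] at hp
  have hpD : p ∈ D := (hp 0).1
  refine ⟨hpD, ?_⟩
  have h12 : v p ≤ vA p := by
    apply le_of_forall_pos_lt_add
    intro ε hε
    obtain ⟨n, hn⟩ := exists_nat_one_div_lt hε
    exact (hp n).2.trans (by linarith)
  obtain ⟨x, hx, hx2⟩ := exists_hat hAc hAne hφc p
  refine ⟨x, hx, ?_⟩
  have h13 : vA p = ⟪x, p⟫_ℝ - hat D v x := hx2
  rw [real_inner_comm] at h13
  linarith

end Pool.Agent.Hhelper48
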