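import Pool.Agent.Hhelper48.Collapse

set_option autoImplicit false

open MeasureTheory Set Metric Module
open scoped InnerProductSpace NNReal ENNReal Topology

namespace Pool.Agent.Hhelper48

variable {E : Type*} [NormedAddCommGroup E] [InnerProductSpace ℝ E] [FiniteDimensional ℝ E]
  [MeasurableSpace E] [BorelSpace E]

/-- Lipschitz maps send null sets to null sets. -/
lemma lip_image_null (μ : Measure E) [μ.IsAddHaarMeasure] {K : ℝ≥0} {f : E → E}
    (hf : LipschitzWith K f) {s : Set E} (hs : μ s = 0) : μ (f '' s) = 0 := by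
  have h1 : (μH[finrank ℝ E] : Measure E) ≪ μ := Measure.absolutelyContinuous_isAddHaarMeasure _ _
  have h2 : μ ≪ (μH[finrank ℝ E] : Measure E) := Measure.absolutelyContinuous_isAddHaarMeasure _ _
  apply h2
  have h3 := hf.hausdorffMeasure_image_le (d := finrank ℝ E) (by positivity) s
  rw [h1 hs, mul_zero] at h3
  exact nonpos_iff_eq_zero.mp h3

/-- A linear map which is firmly nonexpansive and injective has a complement of determinant
smaller than one in absolute value. -/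
lemma det_lt_one [Nontrivial E] (T : E →L[ℝ] E) (hT : ∀ u, ‖T u‖ ^ 2 ≤ ⟪T u, u⟫_ℝ)
    (hdet : T.det ≠ 0) :
    |((ContinuousLinearMap.id ℝ E) - T).det| < 1 := by
  -- `T` is bounded below
  have hinj : LinearMap.ker (T : E →ₗ[ℝ] E) = ⊥ := by
    have := (LinearMap.equivOfDetNeZero (T : E →ₗ[ℝ] E) hdet).ker
    simpa using this
  obtain ⟨K, hK0, hK⟩ := LinearMap.exists_antilipschitzWith (T : E →ₗ[ℝ] E) hinj
  have hbelow : ∀ u, ‖u‖ ≤ K * ‖T u‖ := by
    intro u
    have := hK.le_mul_dist u 0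
    simpa [dist_eq_norm] using this
  set S : E →L[ℝ] E := (ContinuousLinearMap.id ℝ E) - T with hS
  set c : ℝ := 1 - 1 / (K : ℝ) ^ 2 with hc
  have hKpos : (0 : ℝ) < K := by exact_mod_cast hK0
  have hSu : ∀ u, ‖S u‖ ^ 2 ≤ c * ‖u‖ ^ 2 := by
    intro u
    have h1 : S u = u - T u := by simp [hS]
    rw [h1, norm_sub_sq_real, real_inner_comm]
    have h2 := hT u
    have h3 : ‖u‖ ^ 2 ≤ K ^ 2 * ‖T u‖ ^ 2 := by
      rw [← mul_pow]
      exact pow_le_pow_left₀ (norm_nonneg _) (hbelow u) 2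
    have h4 : 1 / (K : ℝ) ^ 2 * ‖u‖ ^ 2 ≤ ‖T u‖ ^ 2 := by
      rw [one_div, inv_mul_le_iff₀ (by positivity)]
      exact h3
    rw [hc]
    nlinarith
  obtain ⟨u₀, hu₀⟩ := exists_ne (0 : E)
  have hc0 : 0 ≤ c := by
    have h1 := hSu u₀
    have h2 : 0 < ‖u₀‖ ^ 2 := by positivity
    have h3 : 0 ≤ ‖S u₀‖ ^ 2 := by positivity
    by_contra hcon
    push Not at hcon
    nlinarith
  have hc1 : c < 1 := by
    rw [hc]
    have : 0 < 1 / (K : ℝ) ^ 2 := by positivity
    linarith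
  set ρ := Real.sqrt c with hρ
  have hρ0 : 0 ≤ ρ := Real.sqrt_nonneg _
  have hρ1 : ρ < 1 := by
    rw [hρ, Real.sqrt_lt' one_pos]
    simpa using hc1
  have himg : (S : E →ₗ[ℝ] E) '' ball 0 1 ⊆ closedBall 0 ρ := by
    rintro _ ⟨u, hu, rfl⟩
    rw [mem_ball_zero_iff] at hu
    rw [mem_closedBall_zero_iff]
    have h1 := hSu u
    have h2 : ‖u‖ ^ 2 ≤ 1 := by nlinarith [norm_nonneg u]
    have h3 : ‖S u‖ ^ 2 ≤ c := h1.trans (by nlinarith)
    exact Real.le_sqrt_of_sq_le h3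
  let μ : Measure E := Measure.addHaar
  have h1 := measure_mono (μ := μ) himg
  rw [Measure.addHaar_image_linearMap, Measure.addHaar_closedBall μ 0 hρ0] at h1
  have hb0 : μ (ball 0 1) ≠ 0 := (measure_ball_pos μ 0 one_pos).ne'
  have hbt : μ (ball (0:E) 1) ≠ ∞ := measure_ball_lt_top.ne
  rw [ENNReal.mul_le_mul_iff_left hb0 hbt] at h1
  have h2 : |LinearMap.det (S : E →ₗ[ℝ] E)| ≤ ρ ^ finrank ℝ E := by
    rwa [ENNReal.ofReal_le_ofReal_iff (by positivity)] at h1
  have h3 : ρ ^ finrank ℝ E < 1 := pow_lt_one₀ hρ0 hρ1 (finrank_pos).ne'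
  exact lt_of_le_of_lt h2 h3

omit [FiniteDimensional ℝ E] [MeasurableSpace E] [BorelSpace E] in
/-- Derivatives of firmly nonexpansive maps are firmly nonexpansive. -/
lemma fderiv_firm {f : E → E} (hf : ∀ y y', ‖f y - f y'‖ ^ 2 ≤ ⟪f y - f y', y - y'⟫_ℝ) {y : E}
    (hd : DifferentiableAt ℝ f y) (u : E) : ‖fderiv ℝ f y u‖ ^ 2 ≤ ⟪fderiv ℝ f y u, u⟫_ℝ := by
  have h1 : HasDerivAt (fun t : ℝ => f (y + t • u)) (fderiv ℝ f y u) 0 := by
    have h2 : HasDerivAt (fun t : ℝ => y + t • u) u 0 := by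
      simpa using ((hasDerivAt_id (0:ℝ)).smul_const u).const_add y
    have h3 : HasFDerivAt f (fderiv ℝ f y) (y + (0:ℝ) • u) := by
      simpa using hd.hasFDerivAt
    exact h3.comp_hasDerivAt 0 h2
  have h4 : Filter.Tendsto (fun t : ℝ => t⁻¹ • (f (y + t • u) - f y)) (𝓝[≠] 0) (𝓝 (fderiv ℝ f y u)) := by
    have := h1.tendsto_slope_zero
    simpa using this
  have h5 : Filter.Tendsto (fun t : ℝ => ‖t⁻¹ • (f (y + t • u) - f y)‖ ^ 2) (𝓝[≠] 0)
      (𝓝 (‖fderiv ℝ f y u‖ ^ 2)) := (h4.norm).pow 2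
  have h6 : Filter.Tendsto (fun t : ℝ => ⟪t⁻¹ • (f (y + t • u) - f y), u⟫_ℝ) (𝓝[≠] 0)
      (𝓝 (⟪fderiv ℝ f y u, u⟫_ℝ)) := h4.inner tendsto_const_nhds
  refine le_of_tendsto_of_tendsto h5 h6 ?_
  filter_upwards [self_mem_nhdsWithin] with t ht
  have ht' : t ≠ 0 := ht
  have h7 := hf (y + t • u) y
  have h8 : y + t • u - y = t • u := by abel
  rw [h8, inner_smul_right] at h7
  rw [norm_smul, mul_pow, norm_inv, inner_smul_left, Real.norm_eq_abs, inv_pow, sq_abs]
  simp only [conj_trivial]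
  have h9 : 0 < t ^ 2 := by positivity
  rw [inv_mul_le_iff₀ h9]
  calc ‖f (y + t • u) - f y‖ ^ 2 ≤ t * ⟪f (y + t • u) - f y, u⟫_ℝ := h7
    _ = t ^ 2 * (t⁻¹ * ⟪f (y + t • u) - f y, u⟫_ℝ) := by field_simp

omit [FiniteDimensional ℝ E] [MeasurableSpace E] [BorelSpace E] in
/-- Fibres of a firmly nonexpansive map are convex. -/
lemma firm_fiber {f : E → E} (hf : ∀ y y', ‖f y - f y'‖ ^ 2 ≤ ⟪f y - f y', y - y'⟫_ℝ) {y y' : E}
    (h : f y = f y') {t : ℝ} (ht0 : 0 ≤ t) (ht1 : t ≤ 1) : f (y + t • (y' - y)) = f y := by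
  set z := y + t • (y' - y) with hz
  have h1 := hf z y
  have h2 := hf z y'
  rw [← h] at h2
  have h3 : z - y = t • (y' - y) := by rw [hz]; abel
  have h4 : z - y' = (-(1 - t)) • (y' - y) := by rw [hz]; module
  rw [h3, inner_smul_right] at h1
  rw [h4, inner_smul_right] at h2
  have h5 : ‖f z - f y‖ ^ 2 ≤ 0 := by
    have h6 := mul_le_mul_of_nonneg_left h1 (by linarith : (0:ℝ) ≤ 1 - t)
    have h7 := mul_le_mul_of_nonneg_left h2 ht0
    nlinarith
  have h6 : ‖f z - f y‖ = 0 := by nlinarith [norm_nonneg (f z - f y)]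
  exact sub_eq_zero.mp (norm_eq_zero.mp h6)

omit [MeasurableSpace E] [BorelSpace E] in
lemma firm_inj_of_det {f : E → E} (hf : ∀ y y', ‖f y - f y'‖ ^ 2 ≤ ⟪f y - f y', y - y'⟫_ℝ) {y y' : E}
    (hd : DifferentiableAt ℝ f y) (hdet : (fderiv ℝ f y).det ≠ 0) (h : f y = f y') : y' = y := by
  by_contra hne
  set u := y' - y with hu
  have hu0 : u ≠ 0 := sub_ne_zero.mpr hne
  have h1 : HasDerivAt (fun t : ℝ => f (y + t • u)) (fderiv ℝ f y u) 0 := by
    have h2 : HasDerivAt (fun t : ℝ => y + t • u) u 0 := by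
      simpa using ((hasDerivAt_id (0:ℝ)).smul_const u).const_add y
    have h3 : HasFDerivAt f (fderiv ℝ f y) (y + (0:ℝ) • u) := by
      simpa using hd.hasFDerivAt
    exact h3.comp_hasDerivAt 0 h2
  have h2 : HasDerivWithinAt (fun t : ℝ => f (y + t • u)) 0 (Icc 0 1) 0 := by
    have h3 : HasDerivWithinAt (fun _ : ℝ => f y) 0 (Icc 0 1) 0 := hasDerivWithinAt_const _ _ _
    apply h3.congr
    · intro t ht
      exact firm_fiber hf h ht.1 ht.2
    · simp
  have h3 : UniqueDiffWithinAt ℝ (Icc (0:ℝ) 1) 0 := uniqueDiffOn_Icc one_pos 0 (by simp)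
  have h4 : fderiv ℝ f y u = 0 := h3.eq_deriv _ h1.hasDerivWithinAt h2
  have hinj : LinearMap.ker (fderiv ℝ f y : E →ₗ[ℝ] E) = ⊥ := by
    have := (LinearMap.equivOfDetNeZero (fderiv ℝ f y : E →ₗ[ℝ] E) hdet).ker
    simpa using this
  apply hu0
  have : u ∈ LinearMap.ker (fderiv ℝ f y : E →ₗ[ℝ] E) := by simpa using h4
  rw [hinj] at this
  simpa using this

/-- **Collapse lemma.** -/
theorem collapse [Nontrivial E] (μ : Measure E) [μ.IsAddHaarMeasure] {D G : Set E} {R : ℝ}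
    (hD : Slopes D R) (hG : Bornology.IsBounded G) (hGm : MeasurableSet G)
    (hμ : μ.real D = μ.real G) :
    ∃ v : E → ℝ, Continuous v ∧ μ (px D v '' G) = 0 := by
  obtain ⟨r, hr⟩ := hG.subset_closedBall 0
  set L : ℝ := max r 0 + R with hL
  have hR0 := hD.nonneg
  have hL0 : 0 ≤ L := by positivity
  obtain ⟨v, hv, hmin⟩ := exists_minimizer (μ := μ) hL0 hD hG hGm hμ
  have hvc : Continuous v := continuous_of_lip hL0 hv
  refine ⟨v, hvc, ?_⟩
  set f := px D v with hf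
  have hfirm : ∀ y y', ‖f y - f y'‖ ^ 2 ≤ ⟪f y - f y', y - y'⟫_ℝ := px_firm hD hvc
  have hlip : LipschitzWith 1 f := by
    apply LipschitzWith.of_dist_le_mul
    intro y y'
    rw [NNReal.coe_one, one_mul, dist_eq_norm, dist_eq_norm]
    have h1 := hfirm y y'
    have h2 := real_inner_le_norm (f y - f y') (y - y')
    by_contra hcon
    push Not at hcon
    have h3 := norm_nonneg (y - y')
    nlinarith
  have hfd : ∀ y, ‖f y‖ ≤ ‖y‖ + R := by
    intro y
    have h1 := px_disp hD hvc y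
    have h2 : ‖f y‖ ≤ ‖y‖ + ‖y - f y‖ := by
      have : f y = y - (y - f y) := by abel
      calc ‖f y‖ = ‖y - (y - f y)‖ := by rw [← this]
        _ ≤ _ := norm_sub_le _ _
    linarith
  -- the good set
  set G' : Set E := {y ∈ G | DifferentiableAt ℝ f y ∧ (fderiv ℝ f y).det ≠ 0} with hG'
  have hG'm : MeasurableSet G' := by
    have h1 : MeasurableSet {y | DifferentiableAt ℝ f y} := measurableSet_of_differentiableAt ℝ f
    have h2 : MeasurableSet {y | (fderiv ℝ f y).det ≠ 0} := by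
      have : Measurable (fun y => (fderiv ℝ f y).det) :=
        ContinuousLinearMap.continuous_det.measurable.comp (measurable_fderiv ℝ f)
      exact (this (measurableSet_singleton 0)).compl
    have : G' = G ∩ ({y | DifferentiableAt ℝ f y} ∩ {y | (fderiv ℝ f y).det ≠ 0}) := by
      ext y; simp [hG']; tauto
    rw [this]
    exact hGm.inter (h1.inter h2)
  have hG'0 : μ G' = 0 := by
    by_contra hpos
    obtain ⟨K, hKG', hKc, hK0⟩ := hG'm.exists_lt_isCompact (pos_iff_ne_zero.mpr hpos)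
    have hKm : MeasurableSet K := hKc.isClosed.measurableSet
    have hKne : K.Nonempty := by
      rw [nonempty_iff_ne_empty]
      rintro rfl
      simp at hK0
    have hKG : K ⊆ G := fun y hy => (hKG' hy).1
    have h1 := first_order hL0 hD hG hGm hv hmin hKc hKG hKne (fun y hy => by
      have h2 := hr (hKG hy)
      rw [mem_closedBall_zero_iff] at h2
      have h3 := hfd y
      have h4 : r ≤ max r 0 := le_max_left _ _
      show ‖f y‖ ≤ L
      linarith) hlip.continuous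
    have h2 : {p ∈ D | ∃ x ∈ px D v '' K, hat D v x ≤ ⟪p, x⟫_ℝ - v p} ⊆ (fun y => y - f y) '' K := by
      rintro p ⟨hp, x, ⟨y, hy, rfl⟩, hx⟩
      have h3 := px_surj hD hvc (px D v y) p hp hx
      have h4 : px D v y + p = y := firm_inj_of_det hfirm (hKG' hy).2.1 (hKG' hy).2.2 h3.symm
      refine ⟨y, hy, ?_⟩
      show y - f y = p
      rw [sub_eq_iff_eq_add, add_comm]
      exact h4.symm
    have h3 : μ ((fun y => y - f y) '' K) ≤
        ∫⁻ y in K, ENNReal.ofReal |((ContinuousLinearMap.id ℝ E) - fderiv ℝ f y).det| ∂μ := by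
      apply addHaar_image_le_lintegral_abs_det_fderiv μ hKm
      intro y hy
      exact ((hasFDerivAt_id y).sub (hKG' hy).2.1.hasFDerivAt).hasFDerivWithinAt
    have hle : ∀ y ∈ K, ENNReal.ofReal |((ContinuousLinearMap.id ℝ E) - fderiv ℝ f y).det| < 1 := by
      intro y hy
      have := det_lt_one (fderiv ℝ f y) (fderiv_firm hfirm (hKG' hy).2.1) (hKG' hy).2.2
      rw [ENNReal.ofReal_lt_one]
      exact this
    have h4 : ∫⁻ y in K, ENNReal.ofReal |((ContinuousLinearMap.id ℝ E) - fderiv ℝ f y).det| ∂μ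
        < ∫⁻ _ in K, 1 ∂μ := by
      apply setLIntegral_strict_mono hKm hK0.ne' measurable_const
      · apply ne_of_lt
        calc ∫⁻ y in K, ENNReal.ofReal |((ContinuousLinearMap.id ℝ E) - fderiv ℝ f y).det| ∂μ
            ≤ ∫⁻ _ in K, 1 ∂μ := setLIntegral_mono measurable_const (fun y hy => (hle y hy).le)
          _ = μ K := by simp
          _ < ∞ := hKc.measure_lt_top
      · exact Filter.Eventually.of_forall hle
    have h5 : ∫⁻ _ in K, 1 ∂μ = μ K := by simp
    rw [h5] at h4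
    exact absurd (h1.trans ((measure_mono h2).trans h3)) (not_le.mpr h4)
  -- conclusion
  have hN0 : μ {y | ¬ DifferentiableAt ℝ f y} = 0 := by
    have := hlip.ae_differentiableAt (μ := μ)
    exact this
  set Z : Set E := {y ∈ G | DifferentiableAt ℝ f y ∧ (fderiv ℝ f y).det = 0} with hZ
  have hZ0 : μ (f '' Z) = 0 := by
    apply addHaar_image_eq_zero_of_det_fderivWithin_eq_zero μ (f' := fderiv ℝ f)
    · intro y hy
      exact hy.2.1.hasFDerivAt.hasFDerivWithinAt
    · intro y hy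
      exact hy.2.2
  have hsub : f '' G ⊆ f '' G' ∪ f '' Z ∪ f '' {y | ¬ DifferentiableAt ℝ f y} := by
    rintro _ ⟨y, hy, rfl⟩
    by_cases hd : DifferentiableAt ℝ f y
    · by_cases h0 : (fderiv ℝ f y).det = 0
      · exact Or.inl (Or.inr ⟨y, ⟨hy, hd, h0⟩, rfl⟩)
      · exact Or.inl (Or.inl ⟨y, ⟨hy, hd, h0⟩, rfl⟩)
    · exact Or.inr ⟨y, hd, rfl⟩
  refine measure_mono_null hsub ?_
  rw [measure_union_null_iff, measure_union_null_iff]
  exact ⟨⟨lip_image_null μ hlip hG'0, hZ0⟩, lip_image_null μ hlip hN0⟩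

end Pool.Agent.Hhelper48
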