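import Pool.Agent.Hhelper48.Prox

set_option autoImplicit false

open MeasureTheory Set Metric
open scoped InnerProductSpace NNReal ENNReal Topology

namespace Pool.Agent.Hhelper48

variable {E : Type*} [NormedAddCommGroup E] [InnerProductSpace ℝ E] [FiniteDimensional ℝ E]
  [MeasurableSpace E] [BorelSpace E]

/-- The functional. -/
noncomputable def fun_I (μ : Measure E) (D G : Set E) (v : E → ℝ) : ℝ :=
  (∫ p in D, v p ∂μ) + ∫ y in G, env D v y ∂μ

/-- Normalised Lipschitz functions. -/
def lipClass (L : ℝ) : Set (E → ℝ) := {v | v 0 = 0 ∧ ∀ p q, |v p - v q| ≤ L * ‖p - q‖}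

omit [InnerProductSpace ℝ E] [FiniteDimensional ℝ E] [MeasurableSpace E] [BorelSpace E] in
lemma continuous_of_lip {L : ℝ} (hL : 0 ≤ L) {v : E → ℝ} (h : ∀ p q, |v p - v q| ≤ L * ‖p - q‖) :
    Continuous v := by
  have : LipschitzWith (Real.toNNReal L) v := by
    apply LipschitzWith.of_le_add_mul
    intro x y
    rw [Real.coe_toNNReal L hL, dist_eq_norm]
    have := (abs_le.mp (h x y)).2
    linarith
  exact this.continuous

omit [InnerProductSpace ℝ E] [FiniteDimensional ℝ E] [MeasurableSpace E] [BorelSpace E] in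
lemma isCompact_lipClass (L : ℝ) : IsCompact (lipClass L : Set (E → ℝ)) := by
  have h1 : IsCompact (Set.pi univ (fun x : E => Icc (-(L * ‖x‖)) (L * ‖x‖))) :=
    isCompact_univ_pi (fun x => isCompact_Icc)
  apply h1.of_isClosed_subset
  · have : (lipClass L : Set (E → ℝ)) = {v | v 0 = 0} ∩ ⋂ (p : E) (q : E), {v | |v p - v q| ≤ L * ‖p - q‖} := by
      ext v
      simp [lipClass]
    rw [this]
    apply IsClosed.inter
    · exact isClosed_eq (continuous_apply 0) continuous_const
    · refine isClosed_iInter fun p => isClosed_iInter fun q => ?_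
      apply isClosed_le _ continuous_const
      exact ((continuous_apply p).sub (continuous_apply q)).abs
  · rintro v ⟨h0, hv⟩ x -
    have := hv x 0
    rw [h0, sub_zero, sub_zero] at this
    exact abs_le.mp this

lemma integrableOn_env {μ : Measure E} [IsFiniteMeasureOnCompacts μ] {D G : Set E} {R : ℝ}
    (hD : Slopes D R) (hG : Bornology.IsBounded G) {v : E → ℝ} (hv : Continuous v) :
    IntegrableOn (env D v) G μ := by
  obtain ⟨r, hr⟩ := hG.subset_closedBall 0
  exact ((env_continuous hD hv).continuousOn.integrableOn_compact (isCompact_closedBall 0 r)).mono_set hr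

omit [InnerProductSpace ℝ E] [FiniteDimensional ℝ E] in
lemma integrableOn_D {μ : Measure E} [IsFiniteMeasureOnCompacts μ] {D : Set E} {R : ℝ}
    (hD : Slopes D R) {v : E → ℝ} (hv : Continuous v) :
    IntegrableOn v D μ :=
  hv.continuousOn.integrableOn_compact hD.compact

/-- Upper comparison for the functional. -/
lemma fun_I_le {μ : Measure E} [IsFiniteMeasureOnCompacts μ] {D G : Set E} {R : ℝ}
    (hD : Slopes D R) (hG : Bornology.IsBounded G) (hGm : MeasurableSet G) {v v' : E → ℝ}
    (hv : Continuous v) (hv' : Continuous v') {c : ℝ} (hc : ∀ p ∈ D, |v p - v' p| ≤ c) :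
    |fun_I μ D G v - fun_I μ D G v'| ≤ c * (μ.real D + μ.real G) := by
  have hDm : MeasurableSet D := hD.compact.isClosed.measurableSet
  have hGf : μ G < ∞ := hG.measure_lt_top
  have hDf : μ D < ∞ := hD.compact.measure_lt_top
  have h1 : |(∫ p in D, v p ∂μ) - ∫ p in D, v' p ∂μ| ≤ c * μ.real D := by
    rw [← integral_sub (integrableOn_D hD hv) (integrableOn_D hD hv'), ← Real.norm_eq_abs]
    apply norm_setIntegral_le_of_norm_le_const hDf
    intro p hp
    exact hc p hp
  have h2 : |(∫ y in G, env D v y ∂μ) - ∫ y in G, env D v' y ∂μ| ≤ c * μ.real G := by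
    rw [← integral_sub (integrableOn_env hD hG hv) (integrableOn_env hD hG hv'), ← Real.norm_eq_abs]
    apply norm_setIntegral_le_of_norm_le_const hGf
    intro y _
    rw [Real.norm_eq_abs, abs_le]
    have h3 := env_le_env_add hD hv hv' (c := c) (fun p hp => by
      have := (abs_le.mp (hc p hp)).2; linarith) y
    have h4 := env_le_env_add hD hv' hv (c := c) (fun p hp => by
      have := (abs_le.mp (hc p hp)).1; linarith) y
    constructor <;> linarith
  rw [fun_I, fun_I]
  have h5 : (∫ p in D, v p ∂μ) + (∫ y in G, env D v y ∂μ) - ((∫ p in D, v' p ∂μ) + ∫ y in G, env D v' y ∂μ)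
    = ((∫ p in D, v p ∂μ) - ∫ p in D, v' p ∂μ) + ((∫ y in G, env D v y ∂μ) - ∫ y in G, env D v' y ∂μ) := by ring
  rw [h5]
  refine (abs_add_le _ _).trans ?_
  linarith

lemma continuousOn_fun_I {μ : Measure E} [IsFiniteMeasureOnCompacts μ] {D G : Set E} {R L : ℝ}
    (hL : 0 ≤ L)
    (hD : Slopes D R) (hG : Bornology.IsBounded G) (hGm : MeasurableSet G) :
    ContinuousOn (fun_I μ D G) (lipClass L) := by
  intro v₀ hv₀
  rw [ContinuousWithinAt, Metric.tendsto_nhds]
  intro ε hε
  set M := μ.real D + μ.real G with hM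
  have hM0 : 0 ≤ M := by positivity
  set δ : ℝ := ε / ((1 + 2 * L) * (M + 1)) with hδ
  have hδ0 : 0 < δ := by positivity
  obtain ⟨t, htD, htf, htc⟩ := hD.compact.finite_cover_balls hδ0
  have hev : ∀ᶠ v : E → ℝ in 𝓝[lipClass L] v₀, ∀ x ∈ t, |v x - v₀ x| < δ := by
    rw [Filter.eventually_all_finite htf]
    intro x _
    apply mem_nhdsWithin_of_mem_nhds
    have : Filter.Tendsto (fun v : E → ℝ => v x) (𝓝 v₀) (𝓝 (v₀ x)) := (continuous_apply x).tendsto v₀
    rw [Metric.tendsto_nhds] at this
    exact this δ hδ0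
  filter_upwards [hev, self_mem_nhdsWithin] with v hv hvL
  rw [Real.dist_eq]
  have hc : ∀ p ∈ D, |v p - v₀ p| ≤ δ * (1 + 2 * L) := by
    intro p hp
    have := htc hp
    simp only [mem_iUnion] at this
    obtain ⟨x, hx, hpx⟩ := this
    rw [mem_ball, dist_eq_norm] at hpx
    have h1 := hv x hx
    have h2 := hvL.2 p x
    have h3 := hv₀.2 x p
    rw [norm_sub_rev] at h3
    have h4 : L * ‖p - x‖ ≤ L * δ := mul_le_mul_of_nonneg_left hpx.le hL
    have h5 : v p - v₀ p = (v p - v x) + (v x - v₀ x) + (v₀ x - v₀ p) := by ring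
    rw [h5]
    calc |(v p - v x) + (v x - v₀ x) + (v₀ x - v₀ p)| ≤ |v p - v x| + |v x - v₀ x| + |v₀ x - v₀ p| :=
          abs_add_three _ _ _
      _ ≤ L * δ + δ + L * δ := by linarith
      _ = _ := by ring
  have h6 := fun_I_le (μ := μ) hD hG hGm (continuous_of_lip hL hvL.2) (continuous_of_lip hL hv₀.2) hc
  refine h6.trans_lt ?_
  rw [← hM, hδ]
  have : ε / ((1 + 2 * L) * (M + 1)) * (1 + 2 * L) * M = ε * (M / (M + 1)) := by
    field_simp
  rw [this]
  have : M / (M + 1) < 1 := by rw [div_lt_one (by positivity)]; linarith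
  nlinarith

lemma exists_minimizer {μ : Measure E} [IsFiniteMeasureOnCompacts μ] {D G : Set E} {R L : ℝ}
    (hL : 0 ≤ L)
    (hD : Slopes D R) (hG : Bornology.IsBounded G) (hGm : MeasurableSet G) (hμ : μ.real D = μ.real G) :
    ∃ v : E → ℝ, (∀ p q, |v p - v q| ≤ L * ‖p - q‖) ∧
      ∀ v' : E → ℝ, (∀ p q, |v' p - v' q| ≤ L * ‖p - q‖) → fun_I μ D G v ≤ fun_I μ D G v' := by
  obtain ⟨v, hv, hmin⟩ := (isCompact_lipClass (E := E) L).exists_isMinOn
    ⟨fun _ => 0, rfl, fun p q => by simp; positivity⟩ (continuousOn_fun_I (μ := μ) hL hD hG hGm)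
  refine ⟨v, hv.2, fun v' hv' => ?_⟩
  set c := v' 0 with hc
  set v'' : E → ℝ := fun p => v' p - c with hv''
  have hv'L : v'' ∈ lipClass L := by
    refine ⟨by simp [hv'', hc], fun p q => ?_⟩
    have : v'' p - v'' q = v' p - v' q := by simp [hv'']
    rw [this]
    exact hv' p q
  have h1 : fun_I μ D G v ≤ fun_I μ D G v'' := hmin hv'L
  have hc' : Continuous v' := continuous_of_lip hL hv'
  have hc'' : Continuous v'' := continuous_of_lip hL hv'L.2
  have hDf : μ D < ∞ := hD.compact.measure_lt_top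
  have hGf : μ G < ∞ := hG.measure_lt_top
  have h2 : (∫ p in D, v'' p ∂μ) = (∫ p in D, v' p ∂μ) - c * μ.real D := by
    rw [hv'', integral_sub (integrableOn_D hD hc') (integrableOn_const (by exact hDf.ne))]
    simp [mul_comm]
  have h3 : (∫ y in G, env D v'' y ∂μ) ≤ (∫ y in G, env D v' y ∂μ) + c * μ.real G := by
    have h4 : (∫ y in G, env D v' y ∂μ) + c * μ.real G = ∫ y in G, (env D v' y + c) ∂μ := by
      rw [integral_add (integrableOn_env hD hG hc') (integrableOn_const (by exact hGf.ne))]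
      simp [mul_comm]
    rw [h4]
    apply integral_mono (integrableOn_env hD hG hc'')
      ((integrableOn_env hD hG hc').add (integrableOn_const (by exact hGf.ne)))
    intro y
    exact env_le_env_add hD hc' hc'' (fun p _ => by simp only [hv'']; linarith) y
  rw [fun_I] at h1
  rw [fun_I, fun_I] 
  rw [fun_I, h2] at h1
  rw [hμ] at h1
  linarith

end Pool.Agent.Hhelper48
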