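import Pool.Agent.Hhelper48.Main

set_option autoImplicit false

open MeasureTheory Set Metric Module
open scoped InnerProductSpace NNReal ENNReal Topology

namespace Pool.Agent.Hhelper48

variable {E : Type*} [NormedAddCommGroup E] [InnerProductSpace ℝ E] [FiniteDimensional ℝ E]

/-! ### Finite maxima of affine functions -/

/-- The maximum of the affine functions `⟪t.1, x⟫ + t.2`, `t ∈ T`. -/
noncomputable def amax (T : Finset (E × ℝ)) (hT : T.Nonempty) (x : E) : ℝ :=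
  T.sup' hT (fun t => ⟪t.1, x⟫_ℝ + t.2)

omit [FiniteDimensional ℝ E] in
lemma le_amax {T : Finset (E × ℝ)} (hT : T.Nonempty) {t : E × ℝ} (ht : t ∈ T) (x : E) :
    ⟪t.1, x⟫_ℝ + t.2 ≤ amax T hT x :=
  Finset.le_sup' (fun t : E × ℝ => ⟪t.1, x⟫_ℝ + t.2) ht

omit [FiniteDimensional ℝ E] in
lemma exists_amax {T : Finset (E × ℝ)} (hT : T.Nonempty) (x : E) :
    ∃ t ∈ T, amax T hT x = ⟪t.1, x⟫_ℝ + t.2 :=
  Finset.exists_mem_eq_sup' hT _

omit [FiniteDimensional ℝ E] in
lemma amax_convex {T : Finset (E × ℝ)} (hT : T.Nonempty) : ConvexOn ℝ univ (amax T hT) := by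
  refine ⟨convex_univ, fun x _ y _ a b ha hb hab => ?_⟩
  obtain ⟨t, ht, h⟩ := exists_amax hT (a • x + b • y)
  rw [h, inner_add_right, inner_smul_right, inner_smul_right, smul_eq_mul, smul_eq_mul]
  have h1 := mul_le_mul_of_nonneg_left (le_amax hT ht x) ha
  have h2 := mul_le_mul_of_nonneg_left (le_amax hT ht y) hb
  have h3 : t.2 = a * t.2 + b * t.2 := by rw [← add_mul, hab, one_mul]
  nlinarith

omit [FiniteDimensional ℝ E] in
lemma amax_lip {T : Finset (E × ℝ)} (hT : T.Nonempty) {R : ℝ} (hR : ∀ t ∈ T, ‖t.1‖ ≤ R) (x y : E) :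
    amax T hT x - amax T hT y ≤ R * ‖x - y‖ := by
  obtain ⟨t, ht, h⟩ := exists_amax hT x
  have h1 := le_amax hT ht y
  have h2 : ⟪t.1, x⟫_ℝ = ⟪t.1, y⟫_ℝ + ⟪t.1, x - y⟫_ℝ := by rw [← inner_add_right]; congr 1; abel
  have h3 : ⟪t.1, x - y⟫_ℝ ≤ R * ‖x - y‖ :=
    (real_inner_le_norm _ _).trans (mul_le_mul_of_nonneg_right (hR t ht) (norm_nonneg _))
  linarith

/-- The open cell of `t`. -/
def cell (T : Finset (E × ℝ)) (t : E × ℝ) : Set E :=
  {x | ∀ s ∈ T, s ≠ t → ⟪s.1, x⟫_ℝ + s.2 < ⟪t.1, x⟫_ℝ + t.2}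

omit [FiniteDimensional ℝ E] in
lemma isOpen_cell (T : Finset (E × ℝ)) (t : E × ℝ) : IsOpen (cell T t) := by
  have : cell T t = ⋂ s ∈ T, {x | s ≠ t → ⟪s.1, x⟫_ℝ + s.2 < ⟪t.1, x⟫_ℝ + t.2} := by
    ext x; simp [cell]
  rw [this]
  apply isOpen_biInter_finset
  intro s _
  by_cases hs : s = t
  · simp [hs]
  · have h2 : {x : E | s ≠ t → ⟪s.1, x⟫_ℝ + s.2 < ⟪t.1, x⟫_ℝ + t.2} =
        {x : E | ⟪s.1, x⟫_ℝ + s.2 < ⟪t.1, x⟫_ℝ + t.2} := by
      ext x; simp [hs]
    rw [h2]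
    exact isOpen_lt (by fun_prop) (by fun_prop)

omit [FiniteDimensional ℝ E] in
lemma convex_cell (T : Finset (E × ℝ)) (t : E × ℝ) : Convex ℝ (cell T t) := by
  intro x hx y hy a b ha hb hab s hs hst
  have h1 := hx s hs hst
  have h2 := hy s hs hst
  simp only [inner_add_right, inner_smul_right]
  have h3 : t.2 = a * t.2 + b * t.2 := by rw [← add_mul, hab, one_mul]
  have h4 : s.2 = a * s.2 + b * s.2 := by rw [← add_mul, hab, one_mul]
  rcases ha.eq_or_lt with h0 | h0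
  · subst h0
    have : b = 1 := by linarith
    subst this
    linarith
  · have h5 := mul_lt_mul_of_pos_left h1 h0
    have h6 := mul_le_mul_of_nonneg_left h2.le hb
    linarith

omit [FiniteDimensional ℝ E] in
lemma cell_unique {T : Finset (E × ℝ)} {s t : E × ℝ} (hs : s ∈ T) (ht : t ∈ T) {x : E}
    (hxs : x ∈ cell T s) (hxt : x ∈ cell T t) : s = t := by
  by_contra hne
  have h1 := hxt s hs hne
  have h2 := hxs t ht (Ne.symm hne)
  linarith

/-- The union of the hyperplanes where two pieces with different slopes agree. -/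
def walls (T : Finset (E × ℝ)) : Set E :=
  {x | ∃ s ∈ T, ∃ t ∈ T, s.1 ≠ t.1 ∧ ⟪s.1, x⟫_ℝ + s.2 = ⟪t.1, x⟫_ℝ + t.2}

omit [FiniteDimensional ℝ E] in
lemma exists_cell {T : Finset (E × ℝ)} (hT : T.Nonempty) {x : E} (hx : x ∉ walls T) :
    ∃ t ∈ T, x ∈ cell T t := by
  obtain ⟨t, ht, h⟩ := exists_amax hT x
  refine ⟨t, ht, fun s hs hst => ?_⟩
  have h1 := le_amax hT hs x
  rw [h] at h1
  rcases h1.lt_or_eq with h2 | h2
  · exact h2
  · exfalso
    by_cases h3 : s.1 = t.1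
    · apply hst
      rw [h3] at h2
      exact Prod.ext h3 (by linarith)
    · exact hx ⟨s, hs, t, ht, h3, h2⟩

/-- A proximal map of a finite maximum of affine functions. -/
lemma exists_amax_prox {T : Finset (E × ℝ)} (hT : T.Nonempty) {R : ℝ} (hR : ∀ t ∈ T, ‖t.1‖ ≤ R) :
    ∃ g : E → E, ∀ y z, amax T hT (g y) + ⟪y - g y, z - g y⟫_ℝ ≤ amax T hT z := by
  have hR0 : 0 ≤ R := by
    obtain ⟨t, ht⟩ := hT
    exact (norm_nonneg _).trans (hR t ht)
  have := fun y => exists_prox (amax_convex hT) hR0 (amax_lip hT hR) y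
  choose g hg using this
  exact ⟨g, hg⟩

omit [FiniteDimensional ℝ E] in
/-- Over an open cell the fibre of the prox is a single translated point. -/
lemma prox_cell {T : Finset (E × ℝ)} (hT : T.Nonempty) {g : E → E}
    (hg : ∀ y z, amax T hT (g y) + ⟪y - g y, z - g y⟫_ℝ ≤ amax T hT z)
    {t : E × ℝ} (ht : t ∈ T) {x : E} (hx : x ∈ cell T t) (y : E) : g y = x ↔ y = x + t.1 := by
  have hact : ∀ z ∈ cell T t, amax T hT z = ⟪t.1, z⟫_ℝ + t.2 := by
    intro z hz
    obtain ⟨s, hs, h⟩ := exists_amax hT z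
    by_cases hst : s = t
    · rw [h, hst]
    · have h1 := hz s hs hst
      have h2 := le_amax hT ht z
      linarith
  constructor
  · intro h
    have h1 := hg y
    rw [h] at h1
    by_contra hne
    set q := y - x with hq
    have hne' : q - t.1 ≠ 0 := by
      intro h0
      apply hne
      rw [sub_eq_zero] at h0
      rw [← h0, hq]; abel
    -- the cell is open: move a little in direction `q - t.1`
    obtain ⟨ε, hε, hball⟩ := Metric.isOpen_iff.mp (isOpen_cell T t) x hx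
    set w := q - t.1 with hw
    set c : ℝ := ε / (2 * ‖w‖) with hc
    have hwpos : 0 < ‖w‖ := norm_pos_iff.mpr hne'
    have hcpos : 0 < c := by positivity
    have hmem : x + c • w ∈ cell T t := by
      apply hball
      rw [mem_ball, dist_eq_norm]
      have : x + c • w - x = c • w := by abel
      rw [this, norm_smul, Real.norm_eq_abs, abs_of_pos hcpos, hc]
      field_simp
      linarith
    have h2 := h1 (x + c • w)
    rw [hact _ hmem, hact _ hx] at h2
    have h3 : x + c • w - x = c • w := by abel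
    rw [h3, inner_add_right, inner_smul_right, inner_smul_right] at h2
    have h4 : c * ⟪q, w⟫_ℝ ≤ c * ⟪t.1, w⟫_ℝ := by linarith
    have h5 : ⟪q, w⟫_ℝ ≤ ⟪t.1, w⟫_ℝ := le_of_mul_le_mul_left h4 hcpos
    have h6 : ⟪q, w⟫_ℝ - ⟪t.1, w⟫_ℝ = ‖w‖ ^ 2 := by
      rw [← inner_sub_left, ← hw, real_inner_self_eq_norm_sq]
    nlinarith [pow_pos hwpos 2]
  · intro h
    refine prox_unique (hg y) (fun z => ?_)
    rw [h, hact _ hx]
    have h1 := le_amax hT ht z
    have h2 : x + t.1 - x = t.1 := by abel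
    rw [h2, inner_sub_right]
    linarith

variable [MeasurableSpace E] [BorelSpace E]

lemma hyperplane_null (μ : Measure E) [μ.IsAddHaarMeasure] {p : E} (hp : p ≠ 0) (c : ℝ) :
    μ {x | ⟪p, x⟫_ℝ = c} = 0 := by
  have h1 : {x | ⟪p, x⟫_ℝ = c} = (AffineSubspace.mk' ((c / ‖p‖ ^ 2) • p) (LinearMap.ker (innerₛₗ ℝ p)) : Set E) := by
    ext x
    have hp2 : ‖p‖ ^ 2 ≠ 0 := by positivity
    simp only [SetLike.mem_coe, AffineSubspace.mem_mk', LinearMap.mem_ker, innerₛₗ_apply_apply,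
      vsub_eq_sub, inner_sub_right, inner_smul_right, real_inner_self_eq_norm_sq, mem_ofPred_eq]
    rw [div_mul_cancel₀ _ hp2, sub_eq_zero]
  rw [h1]
  apply Measure.addHaar_affineSubspace
  intro h
  have h2 := congrArg AffineSubspace.direction h
  rw [AffineSubspace.direction_mk', AffineSubspace.direction_top] at h2
  have h3 : p ∈ LinearMap.ker (innerₛₗ ℝ p) := by rw [h2]; trivial
  rw [LinearMap.mem_ker, innerₛₗ_apply_apply, real_inner_self_eq_norm_sq] at h3
  have : ‖p‖ ^ 2 ≠ 0 := by positivity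
  exact this h3

lemma walls_null (μ : Measure E) [μ.IsAddHaarMeasure] (T : Finset (E × ℝ)) : μ (walls T) = 0 := by
  have h1 : walls T ⊆ ⋃ s ∈ T, ⋃ t ∈ T, {x | s.1 ≠ t.1 ∧ ⟪s.1 - t.1, x⟫_ℝ = t.2 - s.2} := by
    rintro x ⟨s, hs, t, ht, hst, h⟩
    simp only [mem_iUnion]
    refine ⟨s, hs, t, ht, hst, ?_⟩
    rw [inner_sub_left]
    linarith
  refine measure_mono_null h1 ?_
  refine (measure_biUnion_null_iff T.countable_toSet).mpr fun s _ => ?_
  refine (measure_biUnion_null_iff T.countable_toSet).mpr fun t _ => ?_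
  by_cases hst : s.1 = t.1
  · simp [hst]
  · refine measure_mono_null ?_ (hyperplane_null μ (sub_ne_zero.mpr hst) (t.2 - s.2))
    intro x hx
    exact hx.2

end Pool.Agent.Hhelper48
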