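import Mathlib

set_option autoImplicit false

open MeasureTheory Set Metric
open scoped InnerProductSpace NNReal ENNReal Topology

namespace Pool.Agent.Hhelper48

variable {E : Type*} [NormedAddCommGroup E] [InnerProductSpace ℝ E] [FiniteDimensional ℝ E]

/-- Existence of the proximal point, in variational form. -/
lemma exists_prox {φ : E → ℝ} (hconv : ConvexOn ℝ univ φ) {R : ℝ} (hR : 0 ≤ R)
    (hlip : ∀ x y, φ x - φ y ≤ R * ‖x - y‖) (y : E) :
    ∃ x, ∀ z, φ x + ⟪y - x, z - x⟫_ℝ ≤ φ z := by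
  have hcont : Continuous φ := by
    have : LipschitzWith (Real.toNNReal R) φ := by
      apply LipschitzWith.of_le_add_mul
      intro x y
      have := hlip x y
      rw [Real.coe_toNNReal R hR, dist_eq_norm]
      linarith
    exact this.continuous
  have hg : Continuous (fun x => φ x + ‖x - y‖ ^ 2 / 2) := by fun_prop
  obtain ⟨x, hxb, hx⟩ := (isCompact_closedBall y (2 * R)).exists_isMinOn
    ⟨y, mem_closedBall_self (by positivity)⟩ hg.continuousOn
  have hmin : ∀ z, φ x + ‖x - y‖ ^ 2 / 2 ≤ φ z + ‖z - y‖ ^ 2 / 2 := by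
    intro z
    by_cases hz : z ∈ closedBall y (2 * R)
    · exact hx hz
    · have h1 := hx (mem_closedBall_self (by positivity : (0:ℝ) ≤ 2 * R))
      simp only [mem_ofPred_eq, sub_self, norm_zero] at h1
      rw [mem_closedBall, dist_eq_norm, not_le] at hz
      have h2 := hlip y z
      rw [norm_sub_rev] at h2
      nlinarith [norm_nonneg (z - y)]
  refine ⟨x, fun z => ?_⟩
  by_contra hcon
  push Not at hcon
  set a := φ x + ⟪y - x, z - x⟫_ℝ - φ z with ha
  have hapos : 0 < a := by linarith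
  set n := ‖z - x‖ ^ 2 with hn
  have hn0 : 0 ≤ n := by positivity
  set t : ℝ := min 1 (a / (n + 1)) with ht
  have ht0 : 0 < t := lt_min one_pos (by positivity)
  have ht1 : t ≤ 1 := min_le_left _ _
  have htn : t * n < 2 * a := by
    have : t ≤ a / (n + 1) := min_le_right _ _
    have h3 : t * (n + 1) ≤ a := by
      rwa [le_div_iff₀ (by positivity)] at this
    nlinarith
  have h1 := hmin (x + t • (z - x))
  have h2 : φ (x + t • (z - x)) ≤ (1 - t) * φ x + t * φ z := by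
    have := hconv.2 (mem_univ x) (mem_univ z) (by linarith : (0:ℝ) ≤ 1 - t) ht0.le (by ring)
    simp only [smul_eq_mul] at this
    have h4 : x + t • (z - x) = (1 - t) • x + t • z := by module
    rw [h4]; exact this
  have h3 : ‖x + t • (z - x) - y‖ ^ 2 = ‖x - y‖ ^ 2 - 2 * t * ⟪y - x, z - x⟫_ℝ + t ^ 2 * n := by
    have : x + t • (z - x) - y = (x - y) + t • (z - x) := by abel
    rw [this, norm_add_sq_real, norm_smul, inner_smul_right]
    have h5 : ⟪x - y, z - x⟫_ℝ = - ⟪y - x, z - x⟫_ℝ := by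
      rw [← inner_neg_left, neg_sub]
    rw [h5, hn, mul_pow, Real.norm_eq_abs, sq_abs]
    ring
  rw [h3] at h1
  have h6 : 0 ≤ t * (-(a) + t * n / 2) := by
    have : t * (-(a) + t * n / 2) = t * (φ z - φ x) - t * ⟪y - x, z - x⟫_ℝ + t ^ 2 * n / 2 := by
      rw [ha]; ring
    rw [this]
    linarith
  have h7 : -(a) + t * n / 2 < 0 := by linarith
  nlinarith

omit [FiniteDimensional ℝ E] in
/-- Firm nonexpansiveness. -/
lemma prox_firm {φ : E → ℝ} {x x' y y' : E}
    (h : ∀ z, φ x + ⟪y - x, z - x⟫_ℝ ≤ φ z) (h' : ∀ z, φ x' + ⟪y' - x', z - x'⟫_ℝ ≤ φ z) :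
    ‖x - x'‖ ^ 2 ≤ ⟪x - x', y - y'⟫_ℝ := by
  have h1 := h x'
  have h2 := h' x
  have h3 : ⟪y - x, x' - x⟫_ℝ = - ⟪x - x', y⟫_ℝ + ⟪x - x', x⟫_ℝ := by
    rw [← neg_sub x x', inner_neg_right, real_inner_comm, inner_sub_right]; ring
  have h4 : ⟪y' - x', x - x'⟫_ℝ = ⟪x - x', y'⟫_ℝ - ⟪x - x', x'⟫_ℝ := by
    rw [real_inner_comm, inner_sub_right]
  have h5 : ‖x - x'‖ ^ 2 = ⟪x - x', x⟫_ℝ - ⟪x - x', x'⟫_ℝ := by
    rw [← inner_sub_right, real_inner_self_eq_norm_sq]
  rw [h5, inner_sub_right]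
  linarith

omit [FiniteDimensional ℝ E] in
lemma prox_unique {φ : E → ℝ} {x x' y : E}
    (h : ∀ z, φ x + ⟪y - x, z - x⟫_ℝ ≤ φ z) (h' : ∀ z, φ x' + ⟪y - x', z - x'⟫_ℝ ≤ φ z) :
    x = x' := by
  have := prox_firm h h'
  rw [sub_self, inner_zero_right] at this
  have h2 : ‖x - x'‖ = 0 := by
    have := norm_nonneg (x - x')
    nlinarith
  exact sub_eq_zero.mp (norm_eq_zero.mp h2)

omit [FiniteDimensional ℝ E] in
lemma prox_disp {φ : E → ℝ} {R : ℝ} (hR : 0 ≤ R) (hlip : ∀ x y, φ x - φ y ≤ R * ‖x - y‖) {x y : E}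
    (h : ∀ z, φ x + ⟪y - x, z - x⟫_ℝ ≤ φ z) : ‖y - x‖ ≤ R := by
  have h1 := h y
  have h2 := hlip y x
  rw [real_inner_self_eq_norm_sq] at h1
  by_contra hcon
  push Not at hcon
  nlinarith


/-! ### The conjugate over a compact set of slopes -/

/-- `hat D v x = sup_{p ∈ D} (⟪p, x⟫ - v p)`. -/
noncomputable def hat (D : Set E) (v : E → ℝ) (x : E) : ℝ :=
  sSup ((fun p => ⟪p, x⟫_ℝ - v p) '' D)

omit [FiniteDimensional ℝ E] in
lemma hat_bdd {D : Set E} (hD : IsCompact D) {v : E → ℝ} (hv : Continuous v) (x : E) :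
    BddAbove ((fun p => ⟪p, x⟫_ℝ - v p) '' D) :=
  (hD.image (by fun_prop)).bddAbove

omit [FiniteDimensional ℝ E] in
lemma le_hat {D : Set E} (hD : IsCompact D) {v : E → ℝ} (hv : Continuous v) {p : E} (hp : p ∈ D)
    (x : E) : ⟪p, x⟫_ℝ - v p ≤ hat D v x :=
  le_csSup (hat_bdd hD hv x) ⟨p, hp, rfl⟩

omit [FiniteDimensional ℝ E] in
lemma exists_hat {D : Set E} (hD : IsCompact D) (hne : D.Nonempty) {v : E → ℝ} (hv : Continuous v)
    (x : E) : ∃ p ∈ D, hat D v x = ⟪p, x⟫_ℝ - v p := by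
  have hc : Continuous (fun p => ⟪p, x⟫_ℝ - v p) := by fun_prop
  obtain ⟨p, hp, h1, -⟩ := hD.exists_sSup_image_eq_and_ge hne hc.continuousOn
  exact ⟨p, hp, h1⟩

omit [FiniteDimensional ℝ E] in
lemma hat_le {D : Set E} (hne : D.Nonempty) {v : E → ℝ}
    {x : E} {c : ℝ} (h : ∀ p ∈ D, ⟪p, x⟫_ℝ - v p ≤ c) : hat D v x ≤ c := by
  apply csSup_le (hne.image _)
  rintro _ ⟨p, hp, rfl⟩
  exact h p hp

omit [FiniteDimensional ℝ E] in
lemma hat_lip {D : Set E} (hD : IsCompact D) (hne : D.Nonempty) {v : E → ℝ} (hv : Continuous v)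
    {R : ℝ} (hR : ∀ p ∈ D, ‖p‖ ≤ R) (x y : E) : hat D v x - hat D v y ≤ R * ‖x - y‖ := by
  rw [sub_le_iff_le_add]
  apply hat_le hne
  intro p hp
  have h1 := le_hat hD hv hp y
  have h2 : ⟪p, x⟫_ℝ = ⟪p, y⟫_ℝ + ⟪p, x - y⟫_ℝ := by rw [← inner_add_right]; congr 1; abel
  have h3 : ⟪p, x - y⟫_ℝ ≤ R * ‖x - y‖ :=
    (real_inner_le_norm _ _).trans (mul_le_mul_of_nonneg_right (hR p hp) (norm_nonneg _))
  linarith

omit [FiniteDimensional ℝ E] in
lemma hat_convex {D : Set E} (hD : IsCompact D) (hne : D.Nonempty) {v : E → ℝ} (hv : Continuous v) :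
    ConvexOn ℝ univ (hat D v) := by
  refine ⟨convex_univ, fun x _ y _ a b ha hb hab => ?_⟩
  apply hat_le hne
  intro p hp
  have h1 := mul_le_mul_of_nonneg_left (le_hat hD hv hp x) ha
  have h2 := mul_le_mul_of_nonneg_left (le_hat hD hv hp y) hb
  rw [inner_add_right, inner_smul_right, inner_smul_right, smul_eq_mul, smul_eq_mul]
  have h3 : v p = a * v p + b * v p := by rw [← add_mul, hab, one_mul]
  nlinarith

omit [FiniteDimensional ℝ E] in
lemma hat_le_hat_add {D : Set E} (hD : IsCompact D) (hne : D.Nonempty) {v v' : E → ℝ}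
    (hv : Continuous v) {c : ℝ} (h : ∀ p ∈ D, v p ≤ v' p + c) (x : E) :
    hat D v' x ≤ hat D v x + c := by
  apply hat_le hne
  intro p hp
  have h1 := le_hat hD hv hp x
  have h2 := h p hp
  linarith

open Classical in
/-- The proximal map of `hat D v`. -/
noncomputable def px (D : Set E) (v : E → ℝ) (y : E) : E :=
  if h : ∃ x, ∀ z, hat D v x + ⟪y - x, z - x⟫_ℝ ≤ hat D v z then h.choose else 0

/-- Data: `D` compact nonempty inside the ball of radius `R`. -/
structure Slopes (D : Set E) (R : ℝ) : Prop where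
  compact : IsCompact D
  nonempty : D.Nonempty
  bound : ∀ p ∈ D, ‖p‖ ≤ R

omit [InnerProductSpace ℝ E] [FiniteDimensional ℝ E] in
lemma Slopes.nonneg {D : Set E} {R : ℝ} (hD : Slopes D R) : 0 ≤ R := by
  obtain ⟨p, hp⟩ := hD.nonempty
  exact (norm_nonneg p).trans (hD.bound p hp)

lemma px_spec {D : Set E} {R : ℝ} (hD : Slopes D R) {v : E → ℝ} (hv : Continuous v) (y : E) :
    ∀ z, hat D v (px D v y) + ⟪y - px D v y, z - px D v y⟫_ℝ ≤ hat D v z := by
  have h := exists_prox (hat_convex hD.compact hD.nonempty hv) hD.nonneg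
    (hat_lip hD.compact hD.nonempty hv hD.bound) y
  rw [px, dif_pos h]
  exact h.choose_spec

/-- The envelope. -/
noncomputable def env (D : Set E) (v : E → ℝ) (y : E) : ℝ :=
  hat D v (px D v y) + ‖px D v y - y‖ ^ 2 / 2

lemma env_le {D : Set E} {R : ℝ} (hD : Slopes D R) {v : E → ℝ} (hv : Continuous v) (x y : E) :
    env D v y ≤ hat D v x + ‖x - y‖ ^ 2 / 2 := by
  have h := px_spec hD hv y x
  rw [env]
  set q := px D v y
  have h1 : ‖x - y‖ ^ 2 = ‖x - q‖ ^ 2 - 2 * ⟪y - q, x - q⟫_ℝ + ‖q - y‖ ^ 2 := by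
    have : x - y = (x - q) - (y - q) := by abel
    rw [this, norm_sub_sq_real, real_inner_comm, norm_sub_rev q y]
  rw [h1]
  have := sq_nonneg ‖x - q‖
  linarith

lemma env_le_env_add {D : Set E} {R : ℝ} (hD : Slopes D R) {v v' : E → ℝ} (hv : Continuous v)
    (hv' : Continuous v') {c : ℝ} (h : ∀ p ∈ D, v p ≤ v' p + c) (y : E) :
    env D v' y ≤ env D v y + c := by
  refine (env_le hD hv' (px D v y) y).trans ?_
  have := hat_le_hat_add hD.compact hD.nonempty hv h (px D v y)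
  rw [env]
  linarith

lemma env_lip {D : Set E} {R : ℝ} (hD : Slopes D R) {v : E → ℝ} (hv : Continuous v) (y y' : E) :
    env D v y ≤ env D v y' + R * ‖y - y'‖ := by
  refine (env_le hD hv (px D v y' + (y - y')) y).trans ?_
  have h1 := hat_lip hD.compact hD.nonempty hv hD.bound (px D v y' + (y - y')) (px D v y')
  have h2 : px D v y' + (y - y') - px D v y' = y - y' := by abel
  have h3 : px D v y' + (y - y') - y = px D v y' - y' := by abel
  rw [h2] at h1
  rw [h3, env]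
  linarith

lemma env_continuous {D : Set E} {R : ℝ} (hD : Slopes D R) {v : E → ℝ} (hv : Continuous v) :
    Continuous (env D v) := by
  have : LipschitzWith (Real.toNNReal R) (env D v) := by
    apply LipschitzWith.of_le_add_mul
    intro x y
    rw [Real.coe_toNNReal R hD.nonneg, dist_eq_norm]
    exact env_lip hD hv x y
  exact this.continuous

lemma px_disp {D : Set E} {R : ℝ} (hD : Slopes D R) {v : E → ℝ} (hv : Continuous v) (y : E) :
    ‖y - px D v y‖ ≤ R :=
  prox_disp hD.nonneg (hat_lip hD.compact hD.nonempty hv hD.bound) (px_spec hD hv y)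

lemma px_firm {D : Set E} {R : ℝ} (hD : Slopes D R) {v : E → ℝ} (hv : Continuous v) (y y' : E) :
    ‖px D v y - px D v y'‖ ^ 2 ≤ ⟪px D v y - px D v y', y - y'⟫_ℝ :=
  prox_firm (px_spec hD hv y) (px_spec hD hv y')

lemma px_surj {D : Set E} {R : ℝ} (hD : Slopes D R) {v : E → ℝ} (hv : Continuous v) (x p : E)
    (hp : p ∈ D) (h : hat D v x ≤ ⟪p, x⟫_ℝ - v p) : px D v (x + p) = x := by
  refine prox_unique (px_spec hD hv (x + p)) (fun z => ?_)
  have h1 := le_hat hD.compact hv hp z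
  have h2 : x + p - x = p := by abel
  rw [h2, inner_sub_right]
  linarith

end Pool.Agent.Hhelper48
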