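import Pool.Agent.Hhelper48.Poly

set_option autoImplicit false

open MeasureTheory Set Metric Module
open scoped InnerProductSpace NNReal ENNReal Topology

namespace Pool.Agent.Hhelper48

variable {E : Type*} [NormedAddCommGroup E] [InnerProductSpace ℝ E] [FiniteDimensional ℝ E]
  [MeasurableSpace E] [BorelSpace E]

/-- `1`-Lipschitz maps do not increase measure. -/
lemma lip1_image_le (μ : Measure E) [μ.IsAddHaarMeasure] {f : E → E}
    (hf : LipschitzWith 1 f) (s : Set E) : μ (f '' s) ≤ μ s := by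
  have h1 : μ = (Measure.addHaarScalarFactor μ (μH[finrank ℝ E] : Measure E)) • (μH[finrank ℝ E] : Measure E) :=
    Measure.isAddLeftInvariant_eq_smul μ _
  rw [h1]
  simp only [Measure.smul_apply]
  have h3 := hf.hausdorffMeasure_image_le (d := finrank ℝ E) (by positivity) s
  simp only [ENNReal.coe_one, ENNReal.one_rpow, one_mul] at h3
  exact smul_le_smul_of_nonneg_left h3 (by positivity)

lemma exists_slopes [Nontrivial E] (μ : Measure E) [μ.IsAddHaarMeasure] {G : Set E} {η : ℝ}
    (hη : 0 ≤ η) (hsmall : μ G ≤ μ (closedBall 0 η)) :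
    ∃ D : Set E, Slopes D η ∧ μ.real D = μ.real G := by
  set b := μ.real (ball (0:E) 1) with hb
  have hb0 : 0 < b := by
    rw [hb, measureReal_def]
    exact ENNReal.toReal_pos (measure_ball_pos μ 0 one_pos).ne' measure_ball_lt_top.ne
  have hn : finrank ℝ E ≠ 0 := (finrank_pos).ne'
  set R : ℝ := (μ.real G / b) ^ ((finrank ℝ E : ℝ)⁻¹) with hR
  have hq : 0 ≤ μ.real G / b := by positivity
  have hR0 : 0 ≤ R := Real.rpow_nonneg hq _
  have hRn : R ^ finrank ℝ E = μ.real G / b := Real.rpow_inv_natCast_pow hq hn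
  refine ⟨closedBall 0 R, ⟨isCompact_closedBall 0 R, ⟨0, mem_closedBall_self hR0⟩, ?_⟩, ?_⟩
  · intro p hp
    rw [mem_closedBall_zero_iff] at hp
    refine hp.trans ?_
    have h1 : μ.real G ≤ μ.real (closedBall (0:E) η) := by
      rw [measureReal_def, measureReal_def]
      exact ENNReal.toReal_mono measure_closedBall_lt_top.ne hsmall
    rw [Measure.addHaar_real_closedBall μ 0 hη] at h1
    have h2 : R ^ finrank ℝ E ≤ η ^ finrank ℝ E := by
      rw [hRn, div_le_iff₀ hb0]
      exact h1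
    exact le_of_pow_le_pow_left₀ hn hη h2
  · rw [Measure.addHaar_real_closedBall μ 0 hR0, hRn, ← hb]
    field_simp

/-- The polyhedral collapse: a proximal map of a finite maximum of affine functions with small
slopes whose cells avoid the frontier of a Jordan measurable compact set. -/
theorem polyhedral_slopes [Nontrivial E] (μ : Measure E) [μ.IsAddHaarMeasure] {F : Set E}
    (hF : IsCompact F) (hF0 : μ (frontier F) = 0) {M : ℝ} (hM : 0 ≤ M) {η : ℝ}
    (hη : 0 < η) (hη1 : η ≤ 1) :
    ∃ (T : Finset (E × ℝ)), T.Nonempty ∧ (∀ t ∈ T, ‖t.1‖ ≤ η) ∧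
      ∀ t ∈ T, ∀ x ∈ cell T t, ‖x‖ < M + 2 → x + t.1 ∉ frontier F := by
  have hFf : IsCompact (frontier F) := hF.of_isClosed_subset isClosed_frontier hF.isClosed.frontier_subset
  -- choose τ
  have hpos : 0 < μ (closedBall (0:E) (η / 2)) := measure_closedBall_pos μ 0 (by positivity)
  have hlim := tendsto_measure_cthickening_of_isCompact (μ := μ) hFf
  rw [hF0] at hlim
  have hev : ∀ᶠ r in 𝓝 (0:ℝ), μ (cthickening r (frontier F)) < μ (closedBall (0:E) (η / 2)) :=
    hlim.eventually (gt_mem_nhds hpos)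
  have hev2 : ∀ᶠ r in 𝓝[>] (0:ℝ), μ (cthickening r (frontier F)) < μ (closedBall (0:E) (η / 2)) :=
    hev.filter_mono nhdsWithin_le_nhds
  obtain ⟨τ, hτS, hτ0⟩ := (hev2.and self_mem_nhdsWithin).exists
  have hτ : 0 < τ := hτ0
  set S : Set E := cthickening τ (frontier F) with hS
  have hSc : IsCompact S := hFf.cthickening
  -- choose e
  set e : ℝ := η / (2 * (M + 4)) with he
  have he0 : 0 < e := by positivity
  have hed : e * (M + 4) = η / 2 := by rw [he]; field_simp
  set k : ℝ := (1 + e)⁻¹ with hk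
  have hk0 : 0 < k := by positivity
  have hk1 : k ≤ 1 := by
    rw [hk]; exact inv_le_one_of_one_le₀ (by linarith)
  have hke : (1 + e) * k = 1 := by rw [hk]; field_simp
  -- scaled set
  set G : Set E := (fun y : E => k • y) '' S with hG
  have hGc : IsCompact G := hSc.image (by fun_prop)
  have hGsmall : μ G ≤ μ (closedBall (0:E) (η / 2)) := by
    have hl : LipschitzWith 1 (fun y : E => k • y) := by
      apply LipschitzWith.of_dist_le_mul
      intro x y
      rw [NNReal.coe_one, one_mul, dist_smul₀, Real.norm_eq_abs, abs_of_pos hk0]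
      nlinarith [dist_nonneg (x := x) (y := y)]
    exact (lip1_image_le μ hl S).trans hτS.le
  obtain ⟨D, hD, hDG⟩ := exists_slopes μ (by positivity : (0:ℝ) ≤ η / 2) hGsmall
  obtain ⟨v, hv, hnull⟩ := collapse μ hD hGc.isBounded hGc.isClosed.measurableSet hDG
  set f : E → E := fun y => px D v (k • y) with hf
  set φ : E → ℝ := fun x => (1 + e) * hat D v x + e / 2 * ‖x‖ ^ 2 with hφ
  have hhatc : Continuous (hat D v) := by
    apply continuous_of_lip hD.nonneg
    intro x y
    rw [abs_le]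
    have h1 := hat_lip hD.compact hD.nonempty hv hD.bound x y
    have h2 := hat_lip hD.compact hD.nonempty hv hD.bound y x
    rw [norm_sub_rev y x] at h2
    constructor <;> linarith
  have hφc : Continuous φ := by
    simp only [hφ]; fun_prop
  -- strong variational inequality
  have hV : ∀ y z, φ (f y) + ⟪y - f y, z - f y⟫_ℝ + e / 2 * ‖z - f y‖ ^ 2 ≤ φ z := by
    intro y z
    have h1 := px_spec hD hv (k • y) z
    simp only [hφ, hf]
    set q := px D v (k • y) with hq
    have h2 : (1 + e) * (hat D v q + ⟪k • y - q, z - q⟫_ℝ) ≤ (1 + e) * hat D v z :=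
      mul_le_mul_of_nonneg_left h1 (by positivity)
    have h3 : (1 + e) * ⟪k • y - q, z - q⟫_ℝ = ⟪y - q, z - q⟫_ℝ - e * ⟪q, z - q⟫_ℝ := by
      rw [inner_sub_left, inner_sub_left, inner_smul_left]
      simp only [conj_trivial]
      linear_combination (⟪y, z - q⟫_ℝ) * hke
    have h4 : ‖z‖ ^ 2 = ‖q‖ ^ 2 + 2 * ⟪q, z - q⟫_ℝ + ‖z - q‖ ^ 2 := by
      have : z = q + (z - q) := by abel
      conv_lhs => rw [this]
      rw [norm_add_sq_real]
    rw [h4]
    linarith
  -- surjectivity
  have hsurj : ∀ x, ∃ y, f y = x := by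
    intro x
    obtain ⟨p, hp, h⟩ := exists_hat hD.compact hD.nonempty hv x
    refine ⟨(1 + e) • (x + p), ?_⟩
    simp only [hf]
    rw [smul_smul, mul_comm, hke, one_smul]
    exact px_surj hD hv x p hp h.le
  -- displacement bound
  have hdisp : ∀ y, ‖f y‖ ≤ M + 3 → ‖y - f y‖ ≤ η := by
    intro y hy
    have h1 := px_disp hD hv (k • y)
    simp only [hf] at hy ⊢
    set q := px D v (k • y) with hq
    have h2 : ‖k • y‖ ≤ M + 4 := by
      have : k • y = q + (k • y - q) := by abel
      calc ‖k • y‖ = ‖q + (k • y - q)‖ := by rw [← this]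
        _ ≤ ‖q‖ + ‖k • y - q‖ := norm_add_le _ _
        _ ≤ (M + 3) + η / 2 := add_le_add hy h1
        _ ≤ M + 4 := by linarith
    have h3 : y - q = (k • y - q) + e • (k • y) := by
      have h5 : y = (1 + e) • (k • y) := by rw [smul_smul, hke, one_smul]
      calc y - q = (1 + e) • (k • y) - q := by rw [← h5]
        _ = _ := by module
    rw [h3]
    calc ‖(k • y - q) + e • (k • y)‖ ≤ ‖k • y - q‖ + ‖e • (k • y)‖ := norm_add_le _ _
      _ ≤ η / 2 + e * (M + 4) := by
          rw [norm_smul e, Real.norm_eq_abs, abs_of_pos he0]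
          exact add_le_add h1 (mul_le_mul_of_nonneg_left h2 he0.le)
      _ = η := by rw [hed]; ring
  set κ : ℝ := e * τ ^ 2 / 2 with hκ
  have hκ0 : 0 < κ := by positivity
  -- affine supports
  set a : E → E → ℝ := fun y x => φ (f y) + ⟪y - f y, x - f y⟫_ℝ with ha
  set Y : Set E := {y | y ∉ S ∧ ‖f y‖ ≤ M + 3} with hY
  have hcover : closedBall (0:E) (M + 2) ⊆ ⋃ y ∈ Y, {x | φ x - κ < a y x} := by
    intro x₀ hx₀
    rw [mem_closedBall_zero_iff] at hx₀
    -- continuity of φ at x₀
    obtain ⟨δ₁, hδ₁, hδ₁'⟩ := Metric.continuousAt_iff.mp hφc.continuousAt (κ / 2) (by positivity)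
    set δ : ℝ := min δ₁ (min 1 (κ / 2)) with hδ
    have hδ0 : 0 < δ := by positivity
    have hball : ¬ (ball x₀ δ ⊆ f '' S) := by
      intro hsub
      have h1 : μ (ball x₀ δ) ≤ μ (f '' S) := measure_mono hsub
      have h2 : f '' S = px D v '' G := by
        rw [hG, image_image]
      rw [h2, hnull] at h1
      exact absurd (measure_ball_pos μ x₀ hδ0) (not_lt.mpr h1)
    rw [not_subset] at hball
    obtain ⟨x, hxb, hxS⟩ := hball
    obtain ⟨y, rfl⟩ := hsurj x
    have hyS : y ∉ S := fun h => hxS (mem_image_of_mem _ h)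
    rw [mem_ball, dist_eq_norm] at hxb
    have hx1 : ‖f y - x₀‖ < 1 := hxb.trans_le ((min_le_right _ _).trans (min_le_left _ _))
    have hxk : ‖f y - x₀‖ < κ / 2 := hxb.trans_le ((min_le_right _ _).trans (min_le_right _ _))
    have hxd : ‖f y - x₀‖ < δ₁ := hxb.trans_le (min_le_left _ _)
    have hfy : ‖f y‖ ≤ M + 3 := by
      have : f y = x₀ + (f y - x₀) := by abel
      calc ‖f y‖ = ‖x₀ + (f y - x₀)‖ := by rw [← this]
        _ ≤ ‖x₀‖ + ‖f y - x₀‖ := norm_add_le _ _
        _ ≤ M + 3 := by linarith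
    simp only [mem_iUnion]
    refine ⟨y, ⟨hyS, hfy⟩, ?_⟩
    show φ x₀ - κ < φ (f y) + ⟪y - f y, x₀ - f y⟫_ℝ
    have h3 : |φ (f y) - φ x₀| < κ / 2 := by
      have := hδ₁' (x := f y) (by rw [dist_eq_norm]; exact hxd)
      rwa [Real.dist_eq] at this
    have h4 : |⟪y - f y, x₀ - f y⟫_ℝ| ≤ ‖y - f y‖ * ‖x₀ - f y‖ := abs_real_inner_le_norm _ _
    have h5 : ‖y - f y‖ * ‖x₀ - f y‖ ≤ 1 * ‖x₀ - f y‖ :=
      mul_le_mul_of_nonneg_right ((hdisp y hfy).trans hη1) (norm_nonneg _)
    rw [norm_sub_rev x₀] at h4 h5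
    have h6 := (abs_lt.mp h3).1
    have h7 := (abs_le.mp h4).1
    linarith
  have hopen : ∀ y ∈ Y, IsOpen {x | φ x - κ < a y x} := by
    intro y _
    apply isOpen_lt (by fun_prop)
    simp only [ha]; fun_prop
  obtain ⟨Y', hY'Y, hY'f, hY'c⟩ := (isCompact_closedBall (0:E) (M + 2)).elim_finite_subcover_image hopen hcover
  classical
  set Yf : Finset E := hY'f.toFinset with hYf
  set c : E → E × ℝ := fun y => (y - f y, φ (f y) - ⟪y - f y, f y⟫_ℝ) with hc
  set T : Finset (E × ℝ) := Yf.image c with hT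
  have hca : ∀ y x, ⟪(c y).1, x⟫_ℝ + (c y).2 = a y x := by
    intro y x
    simp only [hc, ha, inner_sub_right]
    ring
  have hYfne : Yf.Nonempty := by
    have h0 : (0:E) ∈ closedBall (0:E) (M + 2) := mem_closedBall_self (by positivity)
    have := hY'c h0
    simp only [mem_iUnion] at this
    obtain ⟨y, hy, _⟩ := this
    exact ⟨y, by rw [hYf, Set.Finite.mem_toFinset]; exact hy⟩
  refine ⟨T, hYfne.image _, ?_, ?_⟩
  · intro t ht
    rw [hT, Finset.mem_image] at ht
    obtain ⟨y, hy, rfl⟩ := ht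
    rw [hYf, Set.Finite.mem_toFinset] at hy
    exact hdisp y (hY'Y hy).2
  · intro t ht x hx hxM hfr
    rw [hT, Finset.mem_image] at ht
    obtain ⟨y, hy, rfl⟩ := ht
    rw [hYf, Set.Finite.mem_toFinset] at hy
    have h1 := hY'c (mem_closedBall_zero_iff.mpr hxM.le)
    simp only [mem_iUnion] at h1
    obtain ⟨y', hy', hxy'⟩ := h1
    have h2 : a y' x ≤ a y x := by
      by_cases heq : c y' = c y
      · rw [← hca, ← hca, heq]
      · have h3 := hx (c y') (by
          rw [hT, Finset.mem_image]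
          exact ⟨y', by rw [hYf, Set.Finite.mem_toFinset]; exact hy', rfl⟩) heq
        rw [hca, hca] at h3
        exact h3.le
    have hxy'' : φ x - κ < a y' x := hxy'
    have h4 := hV y x
    have h5 : a y x = φ (f y) + ⟪y - f y, x - f y⟫_ℝ := rfl
    have h6 : e / 2 * ‖x - f y‖ ^ 2 < κ := by linarith
    have h7 : ‖x - f y‖ ^ 2 < τ ^ 2 := by
      rw [hκ] at h6
      have : e / 2 * ‖x - f y‖ ^ 2 < e / 2 * τ ^ 2 := by linarith
      exact lt_of_mul_lt_mul_left this (by positivity)
    have h8 : ‖x - f y‖ < τ := lt_of_pow_lt_pow_left₀ 2 hτ.le h7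
    apply (hY'Y hy).1
    apply thickening_subset_cthickening
    rw [mem_thickening_iff]
    refine ⟨x + (c y).1, hfr, ?_⟩
    rw [dist_eq_norm]
    have : y - (x + (c y).1) = f y - x := by simp only [hc]; abel
    rw [this, norm_sub_rev]
    exact h8

end Pool.Agent.Hhelper48
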