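import Pool.Agent.Hhelper48.Step2

set_option autoImplicit false

open MeasureTheory Set Metric Module
open scoped InnerProductSpace NNReal ENNReal Topology

namespace Pool.Agent.Hhelper48

variable {E : Type*} [NormedAddCommGroup E] [InnerProductSpace ℝ E] [FiniteDimensional ℝ E]

/-- Firmly nonexpansive, onto, and moving points by at most `R`. -/
structure Good (f : E → E) (R : ℝ) : Prop where
  firm : ∀ y y', ‖f y - f y'‖ ^ 2 ≤ ⟪f y - f y', y - y'⟫_ℝ
  surj : ∀ x, ∃ y, f y = x
  disp : ∀ y, ‖y - f y‖ ≤ R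

omit [FiniteDimensional ℝ E] in
lemma firm_lipschitz {f : E → E} (h : ∀ y y', ‖f y - f y'‖ ^ 2 ≤ ⟪f y - f y', y - y'⟫_ℝ) :
    LipschitzWith 1 f := by
  apply LipschitzWith.of_dist_le_mul
  intro y y'
  rw [NNReal.coe_one, one_mul, dist_eq_norm, dist_eq_norm]
  have h1 := h y y'
  have h2 := real_inner_le_norm (f y - f y') (y - y')
  by_contra hcon
  push Not at hcon
  have h3 := norm_nonneg (y - y')
  nlinarith

lemma good_px {D : Set E} {R : ℝ} (hD : Slopes D R) {v : E → ℝ} (hv : Continuous v) :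
    Good (px D v) R := by
  refine ⟨px_firm hD hv, fun x => ?_, px_disp hD hv⟩
  obtain ⟨p, hp, h⟩ := exists_hat hD.compact hD.nonempty hv x
  exact ⟨x + p, px_surj hD hv x p hp h.le⟩

/-- The frontier of the image of a compact set is in the image of the frontier. -/
lemma frontier_image_subset {f : E → E} {R : ℝ} (hf : Good f R) {P : Set E} (hP : IsCompact P) :
    frontier (f '' P) ⊆ f '' frontier P := by
  intro x hx
  by_contra hxn
  have hfc : Continuous f := (firm_lipschitz hf.firm).continuous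
  have hFc : IsClosed (f '' P) := (hP.image hfc).isClosed
  have hxF : x ∈ f '' P := hFc.frontier_subset hx
  obtain ⟨y₀, hy₀P, hy₀⟩ := hxF
  -- the fibre
  set Φ : Set E := {y | f y = x} with hΦ
  have hΦconv : Convex ℝ Φ := by
    rw [convex_iff_segment_subset]
    intro y hy y' hy' z hz
    rw [segment_eq_image'] at hz
    obtain ⟨t, ht, rfl⟩ := hz
    have h1 : f y = f y' := by rw [show f y = x from hy, show f y' = x from hy']
    have h2 := firm_fiber hf.firm h1 ht.1 ht.2
    show f (y + t • (y' - y)) = x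
    rw [h2]; exact hy
  have hΦpre : IsPreconnected Φ := hΦconv.isPreconnected
  have hcov : Φ ⊆ interior P ∪ (closure P)ᶜ := by
    intro y hy
    by_contra hcon
    rw [mem_union, not_or, notMem_compl_iff] at hcon
    exact hxn ⟨y, ⟨hcon.2, hcon.1⟩, hy⟩
  have hdisj : Disjoint (interior P) (closure P)ᶜ := by
    rw [disjoint_compl_right_iff_subset]
    exact interior_subset.trans subset_closure
  have hΦint : Φ ⊆ interior P := by
    rcases IsPreconnected.subset_or_subset isOpen_interior isClosed_closure.isOpen_compl hdisj hcov hΦpre with h | h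
    · exact h
    · exfalso
      have := h (show y₀ ∈ Φ from hy₀)
      exact this (subset_closure hy₀P)
  -- compact complement part
  set C : Set E := (interior P)ᶜ ∩ closedBall 0 (‖x‖ + 1 + R) with hC
  have hCc : IsCompact C := (isCompact_closedBall 0 _).inter_left isOpen_interior.isClosed_compl
  have hCimg : IsClosed (f '' C) := (hCc.image hfc).isClosed
  have hxC : x ∉ f '' C := by
    rintro ⟨y, hy, hyx⟩
    exact hy.1 (hΦint hyx)
  have hV : ball x 1 ∩ (f '' C)ᶜ ⊆ f '' P := by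
    rintro x' ⟨hx'b, hx'C⟩
    obtain ⟨y, rfl⟩ := hf.surj x'
    refine ⟨y, ?_, rfl⟩
    by_contra hyP
    apply hx'C
    refine ⟨y, ⟨fun h => hyP (interior_subset h), ?_⟩, rfl⟩
    rw [mem_closedBall_zero_iff]
    rw [mem_ball, dist_eq_norm] at hx'b
    have h1 := hf.disp y
    have h2 : y = x + (f y - x) + (y - f y) := by abel
    calc ‖y‖ = ‖x + (f y - x) + (y - f y)‖ := by rw [← h2]
      _ ≤ ‖x‖ + ‖f y - x‖ + ‖y - f y‖ := norm_add₃_le
      _ ≤ ‖x‖ + 1 + R := by linarith
  have hxint : x ∈ interior (f '' P) := by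
    rw [mem_interior]
    exact ⟨_, hV, isOpen_ball.inter hCimg.isOpen_compl, mem_ball_self one_pos, hxC⟩
  exact hx.2 hxint

/-- The image of a Jordan measurable compact set under the polyhedral prox. -/
lemma poly_image {F : Set E} (hF : IsCompact F) {M : ℝ} (hFM : F ⊆ closedBall 0 M)
    {η : ℝ} (hη1 : η ≤ 1) {T : Finset (E × ℝ)} (hT : T.Nonempty) (hTη : ∀ t ∈ T, ‖t.1‖ ≤ η)
    (hcell : ∀ t ∈ T, ∀ x ∈ cell T t, ‖x‖ < M + 2 → x + t.1 ∉ frontier F) :
    ∃ g : E → E, Good g η ∧ ∃ P : Set E, P ⊆ g '' F ∧ g '' F \ P ⊆ walls T ∧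
      frontier P ⊆ walls T ∩ closedBall 0 (M + 1) := by
  have hη0 : 0 ≤ η := by
    obtain ⟨t, ht⟩ := hT
    exact (norm_nonneg _).trans (hTη t ht)
  obtain ⟨g, hg⟩ := exists_amax_prox hT hTη
  have hgood : Good g η := by
    refine ⟨fun y y' => prox_firm (hg y) (hg y'), fun x => ?_, fun y => ?_⟩
    · obtain ⟨t, ht, h⟩ := exists_amax hT x
      refine ⟨x + t.1, prox_unique (hg _) (fun z => ?_)⟩
      have h1 := le_amax hT ht z
      have h2 : x + t.1 - x = t.1 := by abel
      rw [h2, inner_sub_right, h]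
      linarith
    · exact prox_disp hη0 (amax_lip hT hTη) (hg y)
  refine ⟨g, hgood, ?_⟩
  set P : Set E := ⋃ t ∈ T, {x | x ∈ cell T t ∧ ‖x‖ < M + 2 ∧ x + t.1 ∈ interior F} with hP
  have hPopen : IsOpen P := by
    apply isOpen_biUnion
    intro t _
    have h1 : IsOpen {x : E | ‖x‖ < M + 2} := isOpen_lt continuous_norm continuous_const
    have h2 : IsOpen {x : E | x + t.1 ∈ interior F} := isOpen_interior.preimage (by fun_prop)
    exact (isOpen_cell T t).inter (h1.inter h2)
  have hPsub : P ⊆ g '' F := by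
    intro x hx
    simp only [hP, mem_iUnion] at hx
    obtain ⟨t, ht, hxc, hxM, hxF⟩ := hx
    exact ⟨x + t.1, interior_subset hxF, (prox_cell hT hg ht hxc _).mpr rfl⟩
  have hgF : g '' F ⊆ closedBall 0 (M + 1) := by
    rintro _ ⟨y, hy, rfl⟩
    have h1 := hFM hy
    rw [mem_closedBall_zero_iff] at h1 ⊢
    have h2 := hgood.disp y
    have h3 : g y = y - (y - g y) := by abel
    calc ‖g y‖ = ‖y - (y - g y)‖ := by rw [← h3]
      _ ≤ ‖y‖ + ‖y - g y‖ := norm_sub_le _ _
      _ ≤ M + 1 := by linarith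
  have hkey : ∀ x ∈ g '' F, x ∉ walls T → x ∈ P := by
    intro x hx hxw
    obtain ⟨t, ht, hxc⟩ := exists_cell hT hxw
    have h1 := hgF hx
    rw [mem_closedBall_zero_iff] at h1
    obtain ⟨y, hyF, hyx⟩ := hx
    have h2 := (prox_cell hT hg ht hxc y).mp hyx
    rw [h2] at hyF
    simp only [hP, mem_iUnion]
    refine ⟨t, ht, hxc, by linarith, ?_⟩
    by_contra hcon
    exact hcell t ht x hxc (by linarith) ⟨subset_closure hyF, hcon⟩
  refine ⟨P, hPsub, ?_, ?_⟩
  · rintro x ⟨hx, hxP⟩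
    by_contra hxw
    exact hxP (hkey x hx hxw)
  · intro x hx
    have hgc : IsClosed (g '' F) := (hF.image (firm_lipschitz hgood.firm).continuous).isClosed
    have h1 : x ∈ g '' F := by
      have : x ∈ closure P := hx.1
      exact (closure_minimal hPsub hgc) this
    have h2 : x ∉ P := by
      have := hx.2
      rwa [hPopen.interior_eq] at this
    refine ⟨?_, hgF h1⟩
    by_contra hxw
    exact h2 (hkey x h1 hxw)

/-- Radial projection onto the closed ball of radius `M`. -/
noncomputable def rproj (M : ℝ) (y : E) : E := if ‖y‖ ≤ M then y else (M / ‖y‖) • y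

omit [FiniteDimensional ℝ E] in
lemma rproj_of_le {M : ℝ} {y : E} (h : ‖y‖ ≤ M) : rproj M y = y := if_pos h

omit [FiniteDimensional ℝ E] in
lemma norm_rproj_of_gt {M : ℝ} (hM : 0 < M) {y : E} (h : ¬ ‖y‖ ≤ M) : ‖rproj M y‖ = M := by
  rw [rproj, if_neg h]
  push Not at h
  have hy : 0 < ‖y‖ := hM.trans h
  rw [norm_smul, norm_div, norm_norm, Real.norm_eq_abs, abs_of_pos hM]
  field_simp

omit [FiniteDimensional ℝ E] in
lemma norm_rproj_le {M : ℝ} (hM : 0 < M) (y : E) : ‖rproj M y‖ ≤ M := by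
  by_cases h : ‖y‖ ≤ M
  · rwa [rproj_of_le h]
  · exact (norm_rproj_of_gt hM h).le

omit [FiniteDimensional ℝ E] in
lemma rproj_var {M : ℝ} (hM : 0 < M) (y z : E) (hz : ‖z‖ ≤ M) :
    ⟪y - rproj M y, z - rproj M y⟫_ℝ ≤ 0 := by
  by_cases h : ‖y‖ ≤ M
  · rw [rproj_of_le h, sub_self, inner_zero_left]
  · have h1 := norm_rproj_of_gt hM h
    set x := rproj M y with hx
    have h' := h
    push Not at h
    have hy : 0 < ‖y‖ := hM.trans h
    have h2 : y = (‖y‖ / M) • x := by
      rw [hx, rproj, if_neg h', smul_smul]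
      have : ‖y‖ / M * (M / ‖y‖) = 1 := by field_simp
      rw [this, one_smul]
    have h3 : y - x = (‖y‖ / M - 1) • x := by
      rw [sub_smul, one_smul, ← h2]
    rw [h3, inner_smul_left, inner_sub_right, real_inner_self_eq_norm_sq, h1]
    simp only [conj_trivial]
    have h4 : 0 ≤ ‖y‖ / M - 1 := by
      rw [sub_nonneg, le_div_iff₀ hM]; linarith
    have h5 : ⟪x, z⟫_ℝ ≤ M * M := by
      refine (real_inner_le_norm _ _).trans ?_
      rw [h1]
      exact mul_le_mul_of_nonneg_left hz hM.le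
    nlinarith

omit [FiniteDimensional ℝ E] in
lemma rproj_lip {M : ℝ} (hM : 0 < M) : LipschitzWith 1 (rproj M : E → E) := by
  apply firm_lipschitz
  intro y y'
  have h1 := rproj_var hM y (rproj M y') (norm_rproj_le hM y')
  have h2 := rproj_var hM y' (rproj M y) (norm_rproj_le hM y)
  set x := rproj M y
  set x' := rproj M y'
  have h3 : ⟪y - x, x' - x⟫_ℝ = - ⟪x - x', y⟫_ℝ + ⟪x - x', x⟫_ℝ := by
    rw [← neg_sub x x', inner_neg_right, real_inner_comm, inner_sub_right]; ring
  have h4 : ⟪y' - x', x - x'⟫_ℝ = ⟪x - x', y'⟫_ℝ - ⟪x - x', x'⟫_ℝ := by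
    rw [real_inner_comm, inner_sub_right]
  have h5 : ‖x - x'‖ ^ 2 = ⟪x - x', x⟫_ℝ - ⟪x - x', x'⟫_ℝ := by
    rw [← inner_sub_right, real_inner_self_eq_norm_sq]
  rw [h5, inner_sub_right]
  linarith

end Pool.Agent.Hhelper48
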