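import Pool.Agent.Hhelper48.Step3

set_option autoImplicit false

open MeasureTheory Set Metric Module Filter
open scoped InnerProductSpace NNReal ENNReal Topology symmDiff

namespace Pool.Agent.Hhelper48

variable {E : Type*} [NormedAddCommGroup E] [InnerProductSpace ℝ E] [FiniteDimensional ℝ E]
  [MeasurableSpace E] [BorelSpace E]

/-- Approximation of bounded measurable sets by compact sets with null frontier. -/
lemma jordan_approx (μ : Measure E) [μ.IsAddHaarMeasure] {A : Set E} (hAm : MeasurableSet A)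
    {M : ℝ} (hM : 0 ≤ M) (hA : A ⊆ closedBall 0 M) {δ : ℝ≥0∞} (hδ : 0 < δ) :
    ∃ P, IsCompact P ∧ μ (frontier P) = 0 ∧ P ⊆ closedBall 0 (M + 1) ∧ μ (A ∆ P) ≤ δ := by
  have hAf : μ A ≠ ∞ := ((measure_mono hA).trans_lt measure_closedBall_lt_top).ne
  have hδ2 : δ / 2 ≠ 0 := (ENNReal.half_pos hδ.ne').ne'
  obtain ⟨K, hKA, hKc, hK⟩ := hAm.exists_isCompact_sdiff_lt hAf hδ2
  have hKf : μ K ≠ ∞ := hKc.measure_lt_top.ne
  have hlim := tendsto_measure_cthickening_of_isCompact (μ := μ) hKc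
  have hev : ∀ᶠ r in 𝓝 (0:ℝ), μ (cthickening r K) < μ K + δ / 2 :=
    hlim.eventually (gt_mem_nhds (ENNReal.lt_add_right hKf hδ2))
  have hev2 : ∀ᶠ r in 𝓝[>] (0:ℝ), μ (cthickening r K) < μ K + δ / 2 ∧ r < 1 :=
    (hev.and (gt_mem_nhds one_pos)).filter_mono nhdsWithin_le_nhds
  obtain ⟨r₀, ⟨hr₀, hr₀1⟩, hr₀0⟩ := (hev2.and self_mem_nhdsWithin).exists
  have hr₀pos : 0 < r₀ := hr₀0
  obtain ⟨r, hr, hrf⟩ := exists_null_frontier_thickening μ K hr₀pos
  set P : Set E := closure (thickening r K) with hP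
  have hPr : P ⊆ cthickening r₀ K :=
    (closure_thickening_subset_cthickening r K).trans (cthickening_mono hr.2.le K)
  have hKP : K ⊆ P := (self_subset_thickening hr.1 K).trans subset_closure
  refine ⟨P, ?_, ?_, ?_, ?_⟩
  · exact (hKc.cthickening (r := r₀)).of_isClosed_subset isClosed_closure hPr
  · exact measure_mono_null frontier_closure_subset hrf
  · refine hPr.trans ?_
    have h1 : cthickening r₀ K ⊆ cthickening 1 (closedBall (0:E) M) :=
      (cthickening_mono hr₀1.le K).trans (cthickening_subset_of_subset 1 (hKA.trans hA))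
    rw [cthickening_closedBall zero_le_one hM, add_comm] at h1
    exact h1
  · have h1 : A ∆ P ⊆ (A \ K) ∪ (cthickening r₀ K \ K) := by
      rintro x (⟨hxA, hxP⟩ | ⟨hxP, hxA⟩)
      · exact Or.inl ⟨hxA, fun h => hxP (hKP h)⟩
      · exact Or.inr ⟨hPr hxP, fun h => hxA (hKA h)⟩
    have h2 : μ (cthickening r₀ K \ K) ≤ δ / 2 := by
      rw [measure_sdiff (self_subset_cthickening K) hKc.isClosed.measurableSet.nullMeasurableSet hKf]
      rw [tsub_le_iff_left]
      exact hr₀.le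
    calc μ (A ∆ P) ≤ μ ((A \ K) ∪ (cthickening r₀ K \ K)) := measure_mono h1
      _ ≤ μ (A \ K) + μ (cthickening r₀ K \ K) := measure_union_le _ _
      _ ≤ δ / 2 + δ / 2 := add_le_add hK.le h2
      _ = δ := ENNReal.add_halves δ

omit [NormedAddCommGroup E] [InnerProductSpace ℝ E] [FiniteDimensional ℝ E]
  [MeasurableSpace E] [BorelSpace E] in
lemma image_symmDiff_subset {f : E → E} (s t : Set E) : (f '' s) ∆ (f '' t) ⊆ f '' (s ∆ t) := by
  rintro _ (⟨⟨x, hx, rfl⟩, h⟩ | ⟨⟨x, hx, rfl⟩, h⟩)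
  · exact ⟨x, Or.inl ⟨hx, fun hxt => h ⟨x, hxt, rfl⟩⟩, rfl⟩
  · exact ⟨x, Or.inr ⟨hx, fun hxt => h ⟨x, hxt, rfl⟩⟩, rfl⟩

omit [NormedAddCommGroup E] [InnerProductSpace ℝ E] [FiniteDimensional ℝ E] [BorelSpace E] in
lemma symmDiff_null_trans {μ : Measure E} {s t u : Set E} (h1 : μ (s ∆ t) = 0) (h2 : μ (t ∆ u) = 0) :
    μ (s ∆ u) = 0 :=
  measure_mono_null (symmDiff_triangle s t u) (measure_union_null h1 h2)

/-- **Main theorem in all dimensions**: every set of finite measure is mapped by a `1`-Lipschitz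
map, losing at most `ε` of measure, onto a set that is polyhedral up to a null set. -/
theorem contraction_polyhedral [Nontrivial E] (μ : Measure E) [μ.IsAddHaarMeasure] {A : Set E}
    (hA : NullMeasurableSet A μ) (hfin : μ A ≠ ∞) {ε : ℝ≥0∞} (hε : 0 < ε) :
    ∃ f : E → E, LipschitzWith 1 f ∧ μ A ≤ μ (f '' A) + ε ∧
      ∃ (T : Finset (E × ℝ)) (P : Set E) (M : ℝ), μ ((f '' A) ∆ P) = 0 ∧
        frontier P ⊆ walls T ∩ closedBall 0 M := by
  have hε2 : 0 < ε / 2 := ENNReal.half_pos hε.ne'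
  -- truncation radius
  obtain ⟨M, hM1, hMA⟩ : ∃ M : ℝ, 1 ≤ M ∧ μ (A \ closedBall 0 M) ≤ ε / 2 := by
    have hlim : Tendsto (fun n : ℕ => μ (A \ closedBall 0 (n:ℝ))) atTop
        (𝓝 (μ (⋂ n : ℕ, A \ closedBall 0 (n:ℝ)))) := by
      apply tendsto_measure_iInter_atTop
      · intro n
        exact hA.diff isClosed_closedBall.measurableSet.nullMeasurableSet
      · intro m n hmn
        apply sdiff_subset_sdiff_right
        exact closedBall_subset_closedBall (by exact_mod_cast hmn)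
      · exact ⟨0, ((measure_mono sdiff_subset).trans_lt hfin.lt_top).ne⟩
    have hempty : (⋂ n : ℕ, A \ closedBall (0:E) (n:ℝ)) = ∅ := by
      rw [eq_empty_iff_forall_notMem]
      intro x hx
      rw [mem_iInter] at hx
      obtain ⟨n, hn⟩ := exists_nat_ge ‖x‖
      exact (hx n).2 (mem_closedBall_zero_iff.mpr hn)
    rw [hempty, measure_empty] at hlim
    have hev := (hlim.eventually (gt_mem_nhds hε2)).and (eventually_ge_atTop 1)
    obtain ⟨n, hn, hn1⟩ := hev.exists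
    exact ⟨n, by exact_mod_cast hn1, hn.le⟩
  have hM0 : 0 < M := by linarith
  set B : Set E := closedBall 0 M with hB
  have hBm : MeasurableSet B := isClosed_closedBall.measurableSet
  have hBf : μ B ≠ ∞ := measure_closedBall_lt_top.ne
  -- the bounded measurable version
  set A₁ : Set E := toMeasurable μ (A ∩ B) ∩ B with hA₁
  have hA₁m : MeasurableSet A₁ := (measurableSet_toMeasurable _ _).inter hBm
  have hA₁B : A₁ ⊆ B := inter_subset_right
  have hA₁0 : μ ((A ∩ B) ∆ A₁) = 0 := by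
    rw [measure_symmDiff_eq_zero_iff]
    have h1 : toMeasurable μ (A ∩ B) =ᵐ[μ] (A ∩ B : Set E) :=
      (hA.inter hBm.nullMeasurableSet).toMeasurable_ae_eq
    have h2 : A₁ =ᵐ[μ] ((A ∩ B) ∩ B : Set E) := h1.inter (ae_eq_refl B)
    rw [inter_assoc, inter_self] at h2
    exact h2.symm
  -- choice of η
  obtain ⟨η, hη0, hη1, hηM⟩ : ∃ η : ℝ, 0 < η ∧ η ≤ 1 / 2 ∧ μ B ≤ μ (closedBall (0:E) (M - 2 * η)) + ε / 2 := by
    have h1 : Continuous (fun η : ℝ => ENNReal.ofReal ((M - 2 * η) ^ finrank ℝ E) * μ (ball (0:E) 1) + ε / 2) := by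
      refine Continuous.add ?_ continuous_const
      exact (ENNReal.continuous_mul_const measure_ball_lt_top.ne).comp
        (ENNReal.continuous_ofReal.comp (by fun_prop))
    have h2 := h1.tendsto 0
    have h3 : μ B < ENNReal.ofReal ((M - 2 * 0) ^ finrank ℝ E) * μ (ball (0:E) 1) + ε / 2 := by
      rw [mul_zero, sub_zero, ← Measure.addHaar_closedBall μ 0 hM0.le]
      exact ENNReal.lt_add_right hBf hε2.ne'
    have h4 := (h2.eventually (lt_mem_nhds h3)).and (gt_mem_nhds (show (0:ℝ) < 1 / 2 by norm_num))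
    have h5 : ∀ᶠ η in 𝓝[>] (0:ℝ), (μ B < ENNReal.ofReal ((M - 2 * η) ^ finrank ℝ E) * μ (ball (0:E) 1) + ε / 2) ∧ η < 1 / 2 :=
      h4.filter_mono nhdsWithin_le_nhds
    obtain ⟨η, ⟨h6, h7⟩, h8⟩ := (h5.and self_mem_nhdsWithin).exists
    refine ⟨η, h8, h7.le, ?_⟩
    have h9 : μ (closedBall (0:E) (M - 2 * η)) = ENNReal.ofReal ((M - 2 * η) ^ finrank ℝ E) * μ (ball (0:E) 1) :=
      Measure.addHaar_closedBall μ 0 (by linarith)
    rw [h9]
    exact h6.le
  -- Jordan approximation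
  obtain ⟨P₀, hP₀c, hP₀f, hP₀B, hP₀A⟩ := jordan_approx μ hA₁m hM0.le hA₁B
    (measure_closedBall_pos μ (0:E) hη0)
  -- first collapse
  have hG₁b : Bornology.IsBounded (A₁ ∆ P₀) := by
    apply (isBounded_closedBall (x := (0:E)) (r := M + 1)).subset
    rintro x (hx | hx)
    · exact closedBall_subset_closedBall (by linarith) (hA₁B hx.1)
    · exact hP₀B hx.1
  have hG₁m : MeasurableSet (A₁ ∆ P₀) := hA₁m.symmDiff hP₀c.isClosed.measurableSet
  obtain ⟨D, hD, hDG⟩ := exists_slopes μ hη0.le hP₀A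
  obtain ⟨v, hv, hnull⟩ := collapse μ hD hG₁b hG₁m hDG
  set f₁ : E → E := px D v with hf₁
  have hgood₁ : Good f₁ η := good_px hD hv
  have hlip₁ := firm_lipschitz hgood₁.firm
  set F : Set E := f₁ '' P₀ with hF
  have hFc : IsCompact F := hP₀c.image hlip₁.continuous
  have hF0 : μ (frontier F) = 0 :=
    measure_mono_null (frontier_image_subset hgood₁ hP₀c) (lip_image_null μ hlip₁ hP₀f)
  have hFM : F ⊆ closedBall 0 (M + 2) := by
    rintro _ ⟨y, hy, rfl⟩
    have h1 := hP₀B hy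
    rw [mem_closedBall_zero_iff] at h1 ⊢
    have h2 := hgood₁.disp y
    have h3 : f₁ y = y - (y - f₁ y) := by abel
    calc ‖f₁ y‖ = ‖y - (y - f₁ y)‖ := by rw [← h3]
      _ ≤ ‖y‖ + ‖y - f₁ y‖ := norm_sub_le _ _
      _ ≤ M + 2 := by linarith
  -- second, polyhedral collapse
  obtain ⟨T, hT, hTη, hcell⟩ := polyhedral_slopes μ hFc hF0 (by linarith : (0:ℝ) ≤ M + 2) hη0 (by linarith)
  obtain ⟨g, hg, P, hP1, hP2, hP3⟩ := poly_image hFc hFM (by linarith) hT hTη hcell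
  have hlipg := firm_lipschitz hg.firm
  -- the final map
  set f : E → E := fun x => g (f₁ (rproj M x)) with hf
  have hflip : LipschitzWith 1 f := by
    have h1 := hlipg.comp (hlip₁.comp (rproj_lip (E := E) hM0))
    rw [one_mul, one_mul] at h1
    exact h1
  have himg : f '' A = g '' (f₁ '' (rproj M '' A)) := by
    rw [image_image, image_image]
  -- null differences
  have hc : μ ((rproj M '' A) ∆ A₁) = 0 := by
    apply symmDiff_null_trans (t := A ∩ B) _ hA₁0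
    apply measure_mono_null _ (Measure.addHaar_sphere μ (0:E) M)
    rintro x (⟨⟨y, hy, rfl⟩, hx⟩ | ⟨hx, hx'⟩)
    · by_cases hyM : ‖y‖ ≤ M
      · exfalso
        apply hx
        rw [rproj_of_le hyM]
        exact ⟨hy, mem_closedBall_zero_iff.mpr hyM⟩
      · rw [mem_sphere_zero_iff_norm]
        exact norm_rproj_of_gt hM0 hyM
    · exfalso
      apply hx'
      exact ⟨x, hx.1, rproj_of_le (mem_closedBall_zero_iff.mp hx.2)⟩
  have h1 : μ ((f₁ '' (rproj M '' A)) ∆ (f₁ '' A₁)) = 0 :=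
    measure_mono_null (image_symmDiff_subset _ _) (lip_image_null μ hlip₁ hc)
  have h2 : μ ((f₁ '' A₁) ∆ F) = 0 :=
    measure_mono_null (image_symmDiff_subset _ _) hnull
  have h3 : μ ((f '' A) ∆ (g '' (f₁ '' A₁))) = 0 := by
    rw [himg]
    exact measure_mono_null (image_symmDiff_subset _ _) (lip_image_null μ hlipg h1)
  have h4 : μ ((g '' (f₁ '' A₁)) ∆ (g '' F)) = 0 :=
    measure_mono_null (image_symmDiff_subset _ _) (lip_image_null μ hlipg h2)
  have h5 : μ ((g '' F) ∆ P) = 0 := by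
    apply measure_mono_null _ (walls_null μ T)
    rintro x (hx | hx)
    · exact hP2 hx
    · exact absurd (hP1 hx.1) hx.2
  refine ⟨f, hflip, ?_, T, P, M + 2 + 1, symmDiff_null_trans (symmDiff_null_trans h3 h4) h5, hP3⟩
  -- measure estimate
  have h6 : closedBall (0:E) (M - 2 * η) ⊆ (g '' (f₁ '' A₁)) ∪ (g '' (f₁ '' (B \ A₁))) := by
    intro x hx
    rw [mem_closedBall_zero_iff] at hx
    obtain ⟨z, hz⟩ := hg.surj x
    obtain ⟨y, hy⟩ := hgood₁.surj z
    have h7 := hg.disp z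
    have h8 := hgood₁.disp y
    have h9 : y = x + (z - g z) + (y - f₁ y) := by rw [hz, hy]; abel
    have h10 : ‖y‖ ≤ M := by
      calc ‖y‖ = ‖x + (z - g z) + (y - f₁ y)‖ := by rw [← h9]
        _ ≤ ‖x‖ + ‖z - g z‖ + ‖y - f₁ y‖ := norm_add₃_le
        _ ≤ M := by linarith
    by_cases hyA : y ∈ A₁
    · exact Or.inl ⟨z, ⟨y, hyA, hy⟩, hz⟩
    · exact Or.inr ⟨z, ⟨y, ⟨mem_closedBall_zero_iff.mpr h10, hyA⟩, hy⟩, hz⟩
  have h7 : μ (closedBall (0:E) (M - 2 * η)) ≤ μ (g '' (f₁ '' A₁)) + μ (B \ A₁) := by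
    calc μ (closedBall (0:E) (M - 2 * η)) ≤ μ ((g '' (f₁ '' A₁)) ∪ (g '' (f₁ '' (B \ A₁)))) := measure_mono h6
      _ ≤ μ (g '' (f₁ '' A₁)) + μ (g '' (f₁ '' (B \ A₁))) := measure_union_le _ _
      _ ≤ μ (g '' (f₁ '' A₁)) + μ (B \ A₁) :=
          add_le_add le_rfl ((lip1_image_le μ hlipg _).trans (lip1_image_le μ hlip₁ _))
  have hA₁f : μ A₁ ≠ ∞ := ((measure_mono hA₁B).trans_lt hBf.lt_top).ne
  have h8 : μ (B \ A₁) + μ A₁ = μ B := by
    rw [← measure_union disjoint_sdiff_left hA₁m, sdiff_union_of_subset hA₁B]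
  have hdf : μ (B \ A₁) ≠ ∞ := ((measure_mono sdiff_subset).trans_lt hBf.lt_top).ne
  have h9 : μ A₁ ≤ μ (g '' (f₁ '' A₁)) + ε / 2 := by
    have h10 : μ (B \ A₁) + μ A₁ ≤ μ (B \ A₁) + (μ (g '' (f₁ '' A₁)) + ε / 2) := by
      rw [h8]
      calc μ B ≤ μ (closedBall (0:E) (M - 2 * η)) + ε / 2 := hηM
        _ ≤ (μ (g '' (f₁ '' A₁)) + μ (B \ A₁)) + ε / 2 := by gcongr
        _ = _ := by ring
    exact (ENNReal.add_le_add_iff_left hdf).mp h10
  have h10 : μ (g '' (f₁ '' A₁)) = μ (f '' A) := by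
    apply measure_congr
    rw [← measure_symmDiff_eq_zero_iff, symmDiff_comm]
    exact h3
  have h11 : μ (A ∩ B) = μ A₁ := by
    apply measure_congr
    rw [← measure_symmDiff_eq_zero_iff]
    exact hA₁0
  calc μ A ≤ μ (A ∩ B) + μ (A \ B) := measure_le_inter_add_sdiff μ A B
    _ ≤ (μ (f '' A) + ε / 2) + ε / 2 := by
        rw [h11, ← h10]
        exact add_le_add h9 hMA
    _ = μ (f '' A) + ε := by rw [add_assoc, ENNReal.add_halves]

end Pool.Agent.Hhelper48
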